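import Pool.Agent.U6.BL.Final
set_option autoImplicit false

/-!
# Combinatorial cubes
-/

namespace Pool.Agent.U6.BL

open Finset Matrix Pool.Agent.N597.QP

variable {m n : ℕ} {A : Fin m → Fin n → ℝ} {b : Fin m → ℝ} {c : Fin n → ℝ}

/-- `A q ≤ b` is a combinatorial cube with opposite facets `ρ (i, false)` and `ρ (i, true)`: every
choice of one facet of each pair is the set of the tight rows of a vertex. -/
def Cube (A : Fin m → Fin n → ℝ) (b : Fin m → ℝ) (ρ : Fin n × Bool → Fin m) : Prop :=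
  ∀ s : Fin n → Bool, ∃ q, IsVertex A b q ∧ tight A b q = univ.image fun i => ρ (i, s i)

variable {ρ : Fin n × Bool → Fin m}

/-- the class of the right hand sides of cubes is convex -/
lemma convex_cube (A : Fin m → Fin n → ℝ) (ρ : Fin n × Bool → Fin m) :
    Convex ℝ {b | Cube A b ρ} := by
  intro b₁ h₁ b₂ h₂ u v hu hv huv s
  rcases hu.eq_or_lt with rfl | hu
  · have : v = 1 := by linarith
    subst this
    simpa using h₂ s
  rcases hv.eq_or_lt with rfl | hv
  · have : u = 1 := by linarith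
    subst this
    simpa using h₁ s
  obtain ⟨q₁, g₁, t₁⟩ := h₁ s
  obtain ⟨q₂, g₂, t₂⟩ := h₂ s
  have hdot : ∀ i, A i ⬝ᵥ (u • q₁ + v • q₂) = u * (A i ⬝ᵥ q₁) + v * (A i ⬝ᵥ q₂) := by
    intro i
    rw [dotProduct_add, dotProduct_smul, dotProduct_smul, smul_eq_mul, smul_eq_mul]
  have hbi : ∀ i, (u • b₁ + v • b₂) i = u * b₁ i + v * b₂ i := fun i => by simp
  have ht : tight A (u • b₁ + v • b₂) (u • q₁ + v • q₂) = univ.image fun i => ρ (i, s i) := by
    rw [← t₁]
    ext i
    rw [mem_tight, hdot, hbi]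
    have e1 := g₁.1 i
    have e2 := g₂.1 i
    constructor
    · intro h
      have h1 := mul_le_mul_of_nonneg_left e1 hu.le
      have h2 := mul_le_mul_of_nonneg_left e2 hv.le
      have h3 : u * (A i ⬝ᵥ q₁) = u * b₁ i := by linarith
      exact mem_tight.2 (mul_left_cancel₀ hu.ne' h3)
    · intro h
      have h2 : i ∈ tight A b₂ q₂ := by rw [t₂, ← t₁]; exact h
      rw [mem_tight.1 h, mem_tight.1 h2]
  refine ⟨u • q₁ + v • q₂, ⟨fun i => ?_, fun q' hq' => ?_⟩, ht⟩
  · rw [hdot, hbi]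
    exact add_le_add (mul_le_mul_of_nonneg_left (g₁.1 i) hu.le)
      (mul_le_mul_of_nonneg_left (g₂.1 i) hv.le)
  · have h1 : u⁻¹ • (q' - v • q₂) = q₁ := by
      apply g₁.2
      intro i hi
      have h2 : i ∈ tight A b₂ q₂ := by rw [t₂, ← t₁]; exact hi
      have h3 : i ∈ tight A (u • b₁ + v • b₂) (u • q₁ + v • q₂) := by rw [ht, ← t₁]; exact hi
      have h4 := hq' i h3
      rw [hbi] at h4
      rw [dotProduct_smul, dotProduct_sub, dotProduct_smul, h4, mem_tight.1 h2]
      simp only [smul_eq_mul]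
      field_simp
      ring
    rw [← h1, smul_smul, mul_inv_cancel₀ hu.ne', one_smul]
    simp

/-- a better vertex in a pair of opposite facets which is left towards `p` -/
lemma cube_step (hρ : Function.Injective ρ) (_ : Cube A b ρ) {x : (Fin n → Bool) → Fin n → ℝ}
    (hx : ∀ s, IsVertex A b (x s) ∧ tight A b (x s) = univ.image fun i => ρ (i, s i))
    (c : Fin n → ℝ) (s : Fin n → Bool) {p : Fin n → ℝ} (hp : Feas A b p)
    (hlt : c ⬝ᵥ x s < c ⬝ᵥ p) :
    ∃ i, A (ρ (i, s i)) ⬝ᵥ p ≠ b (ρ (i, s i)) ∧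
      c ⬝ᵥ x s < c ⬝ᵥ x (Function.update s i (!s i)) ∧
      (tight A b (x s)).erase (ρ (i, s i)) ⊆ tight A b (x (Function.update s i (!s i))) := by
  classical
  have hinj : Function.Injective fun i => ρ (i, s i) := by
    intro i j hij
    exact congrArg Prod.fst (hρ hij)
  obtain ⟨h1, h2⟩ := hx s
  have hcard : (tight A b (x s)).card = n := by
    rw [h2, card_image_of_injective _ hinj, card_univ, Fintype.card_fin]
  obtain ⟨y, hy⟩ := h1.exists_mult hcard c
  have hsum : c ⬝ᵥ (p - x s) = ∑ k, y k * (A (num (tight A b (x s)) hcard k) ⬝ᵥ p -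
      b (num (tight A b (x s)) hcard k)) := by
    rw [dot_mult hy]
    refine sum_congr rfl fun k _ => ?_
    rw [dotProduct_sub, mem_tight.1 (num_mem _ hcard k)]
  have hpos : 0 < c ⬝ᵥ (p - x s) := by
    rw [dotProduct_sub]; linarith
  rw [hsum] at hpos
  obtain ⟨k, -, hk⟩ := exists_lt_of_sum_lt (s := univ) (f := fun _ : Fin n => (0 : ℝ))
    (g := fun k => y k * (A (num (tight A b (x s)) hcard k) ⬝ᵥ p -
      b (num (tight A b (x s)) hcard k))) (by simpa using hpos)
  have hfac : A (num (tight A b (x s)) hcard k) ⬝ᵥ p - b (num (tight A b (x s)) hcard k) ≤ 0 := by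
    have := hp (num (tight A b (x s)) hcard k)
    linarith
  have hyk : y k < 0 := by
    by_contra hcon
    have := mul_nonpos_of_nonneg_of_nonpos (not_lt.1 hcon) hfac
    linarith
  have hfne : A (num (tight A b (x s)) hcard k) ⬝ᵥ p ≠ b (num (tight A b (x s)) hcard k) := by
    intro h
    rw [h, sub_self, mul_zero] at hk
    exact lt_irrefl _ hk
  have hmem : ∃ i ∈ (univ : Finset (Fin n)), ρ (i, s i) = num (tight A b (x s)) hcard k := by
    have h9 : ∀ r, r ∈ tight A b (x s) → ∃ i ∈ (univ : Finset (Fin n)), ρ (i, s i) = r := by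
      intro r hr
      rw [h2] at hr
      exact mem_image.1 hr
    exact h9 _ (num_mem (tight A b (x s)) hcard k)
  obtain ⟨i, -, hi⟩ := hmem
  set s' := Function.update s i (!s i) with hs'
  obtain ⟨g1, g2⟩ := hx s'
  have hsub : (tight A b (x s)).erase (ρ (i, s i)) ⊆ tight A b (x s') := by
    intro r hr
    obtain ⟨hr1, hr2⟩ := mem_erase.1 hr
    rw [h2, mem_image] at hr2
    obtain ⟨j, -, rfl⟩ := hr2
    have hji : j ≠ i := fun h => hr1 (by rw [h])
    rw [g2, mem_image]
    refine ⟨j, mem_univ _, ?_⟩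
    rw [hs', Function.update_of_ne hji]
  have hnot : ρ (i, s i) ∉ tight A b (x s') := by
    rw [g2, mem_image]
    rintro ⟨j, -, hj⟩
    have h3 := hρ hj
    have h4 : j = i := congrArg Prod.fst h3
    subst h4
    have h5 : s' j = s j := congrArg Prod.snd h3
    rw [hs', Function.update_self] at h5
    revert h5
    cases s j <;> simp
  refine ⟨i, by rw [hi]; exact hfne, ?_, hsub⟩
  have e := edge_eq hy (q' := x s') (i := k) (by rw [← hi]; exact hsub)
  have h3 : A (ρ (i, s i)) ⬝ᵥ x s' < b (ρ (i, s i)) :=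
    lt_of_le_of_ne (g1.1 _) fun h => hnot (mem_tight.2 h)
  rw [← hi] at e
  have h4 := mul_pos_of_neg_of_neg hyk (sub_neg.2 h3)
  linarith

/-- a vertex of the list is optimal -/
lemma cube_opt (hρ : Function.Injective ρ) (hcu : Cube A b ρ) {x : (Fin n → Bool) → Fin n → ℝ}
    (hx : ∀ s, IsVertex A b (x s) ∧ tight A b (x s) = univ.image fun i => ρ (i, s i))
    (c : Fin n → ℝ) : ∃ s, ∀ p, Feas A b p → c ⬝ᵥ p ≤ c ⬝ᵥ x s := by
  obtain ⟨s, -, hs⟩ := exists_max_image (univ : Finset (Fin n → Bool)) (fun s => c ⬝ᵥ x s)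
    ⟨fun _ => false, mem_univ _⟩
  refine ⟨s, fun p hp => ?_⟩
  by_contra hcon
  obtain ⟨i, -, h1, -⟩ := cube_step hρ hcu hx c s hp (not_le.1 hcon)
  exact absurd (hs _ (mem_univ _)) (not_le.2 h1)

/-- all vertices are in the list -/
lemma cube_all (hρ : Function.Injective ρ) (hcu : Cube A b ρ) {x : (Fin n → Bool) → Fin n → ℝ}
    (hx : ∀ s, IsVertex A b (x s) ∧ tight A b (x s) = univ.image fun i => ρ (i, s i))
    {q : Fin n → ℝ} (hq : IsVertex A b q) : ∃ s, q = x s := by
  obtain ⟨s, hs⟩ := cube_opt hρ hcu hx (∑ i ∈ tight A b q, A i)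
  refine ⟨s, ?_⟩
  have h1 := hs q hq.1
  rw [sum_dotProduct, sum_dotProduct] at h1
  have h2 : ∑ i ∈ tight A b q, A i ⬝ᵥ x s = ∑ i ∈ tight A b q, A i ⬝ᵥ q := by
    refine le_antisymm (sum_le_sum fun i hi => ?_) h1
    rw [mem_tight.1 hi]
    exact (hx s).1.1 i
  have h3 : ∀ i ∈ tight A b q, A i ⬝ᵥ x s = b i := by
    have h4 : ∀ i ∈ tight A b q, A i ⬝ᵥ x s ≤ A i ⬝ᵥ q := fun i hi => by
      rw [mem_tight.1 hi]
      exact (hx s).1.1 i
    intro i hi
    rw [(sum_eq_sum_iff_of_le h4).1 h2 i hi]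
    exact mem_tight.1 hi
  exact (hq.2 _ h3).symm

lemma cube_nondeg (hρ : Function.Injective ρ) (hcu : Cube A b ρ) : Nondeg A b := by
  have hcu' := hcu
  choose x hx using hcu'
  intro q hq
  obtain ⟨s, rfl⟩ := cube_all hρ hcu hx hq
  rw [(hx s).2, card_image_of_injective, card_univ, Fintype.card_fin]
  intro i j hij
  exact congrArg Prod.fst (hρ hij)

/-- improving paths of at most `n` steps on cubes -/
lemma cube_path (hρ : Function.Injective ρ) (hcu : Cube A b ρ) (c : Fin n → ℝ)
    {q₀ : Fin n → ℝ} (hq₀ : IsVertex A b q₀) :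
    ∃ (T : ℕ) (q : ℕ → Fin n → ℝ), T ≤ n ∧ q 0 = q₀ ∧ (∀ t ≤ T, IsVertex A b (q t)) ∧
      (∀ t < T, c ⬝ᵥ q t < c ⬝ᵥ q (t + 1) ∧
        ∃ r, (tight A b (q t)).erase r ⊆ tight A b (q (t + 1))) ∧
      ∀ p, Feas A b p → c ⬝ᵥ p ≤ c ⬝ᵥ q T := by
  classical
  have hcu' := hcu
  choose x hx using hcu'
  obtain ⟨s₁, hs₁⟩ := cube_opt hρ hcu hx c
  obtain ⟨s₀, rfl⟩ := cube_all hρ hcu hx hq₀
  have key : ∀ (d : ℕ) (s : Fin n → Bool), (univ.filter fun i => s i ≠ s₁ i).card ≤ d →
      ∃ (T : ℕ) (q : ℕ → Fin n → ℝ), T ≤ d ∧ q 0 = x s ∧ (∀ t ≤ T, IsVertex A b (q t)) ∧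
      (∀ t < T, c ⬝ᵥ q t < c ⬝ᵥ q (t + 1) ∧
        ∃ r, (tight A b (q t)).erase r ⊆ tight A b (q (t + 1))) ∧
      ∀ p, Feas A b p → c ⬝ᵥ p ≤ c ⬝ᵥ q T := by
    intro d
    induction d with
    | zero =>
      intro s hs
      have h1 : s = s₁ := by
        funext i
        by_contra h
        have h2 : i ∈ univ.filter fun i => s i ≠ s₁ i := mem_filter.2 ⟨mem_univ _, h⟩
        rw [card_eq_zero.1 (Nat.le_zero.1 hs)] at h2
        simp at h2
      subst h1
      exact ⟨0, fun _ => x s, le_rfl, rfl, fun _ _ => (hx s).1, fun t ht => by omega, hs₁⟩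
    | succ d ih =>
      intro s hs
      by_cases hopt : c ⬝ᵥ x s < c ⬝ᵥ x s₁
      · obtain ⟨i, h1, h2, h3⟩ := cube_step hρ hcu hx c s (hx s₁).1.1 hopt
        have hne : s i ≠ s₁ i := by
          intro h
          apply h1
          apply mem_tight.1
          rw [(hx s₁).2, mem_image]
          exact ⟨i, mem_univ _, by rw [h]⟩
        have hlt : (univ.filter fun j => Function.update s i (!s i) j ≠ s₁ j).card ≤ d := by
          have h4 : (univ.filter fun j => Function.update s i (!s i) j ≠ s₁ j) ⊆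
              (univ.filter fun j => s j ≠ s₁ j).erase i := by
            intro j hj
            rw [mem_filter] at hj
            have hji : j ≠ i := by
              rintro rfl
              rw [Function.update_self] at hj
              apply hj.2
              revert hne
              cases s j <;> cases s₁ j <;> simp
            rw [Function.update_of_ne hji] at hj
            exact mem_erase.2 ⟨hji, mem_filter.2 hj⟩
          have h5 := card_le_card h4
          have h6 : i ∈ univ.filter fun j => s j ≠ s₁ j := mem_filter.2 ⟨mem_univ _, hne⟩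
          have h7 := card_erase_of_mem h6
          omega
        obtain ⟨T, q, g1, g2, g3, g4, g5⟩ := ih _ hlt
        refine ⟨T + 1, fun t => Nat.casesOn t (x s) q, by omega, rfl, ?_, ?_, g5⟩
        · intro t ht
          cases t with
          | zero => exact (hx s).1
          | succ t => exact g3 t (by omega)
        · intro t ht
          cases t with
          | zero =>
            show c ⬝ᵥ x s < c ⬝ᵥ q 0 ∧ ∃ r, (tight A b (x s)).erase r ⊆ tight A b (q 0)
            rw [g2]
            exact ⟨h2, _, h3⟩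
          | succ t => exact g4 t (by omega)
      · refine ⟨0, fun _ => x s, by omega, rfl, fun _ _ => (hx s).1, fun t ht => by omega, ?_⟩
        intro p hp
        exact (hs₁ p hp).trans (not_lt.1 hopt)
  exact key n s₀ ((card_le_univ _).trans_eq (Fintype.card_fin n))

end Pool.Agent.U6.BL
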