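import Mathlib
set_option autoImplicit false

/-!
# Sign patterns of linear functionals: number and central points
-/

namespace Pool.Agent.U6.BL

open Finset

lemma two_mul_pow_le {D : ℕ} (hD : 1 ≤ D) : 2 * D ^ D ≤ (D + 1) ^ D := by
  have h : (2 : ℚ) * D ^ D ≤ (D + 1) ^ D := by
    have hD0 : (0 : ℚ) < D := by exact_mod_cast hD
    have h1 := one_add_mul_le_pow (a := (1 : ℚ) / D) (by
      have : (0 : ℚ) ≤ 1 / D := by positivity
      linarith) D
    have h2 : (1 : ℚ) + D * (1 / D) = 2 := by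
      field_simp
      norm_num
    have h3 : (1 + (1 : ℚ) / D) = (D + 1) / D := by
      field_simp
    rw [h2, h3, div_pow, le_div_iff₀ (by positivity)] at h1
    exact h1
  exact_mod_cast h

/-- `(D + 1) ^ (D j)` beats `N D ^ (D j)` if `N < 2 ^ j` -/
lemma mul_pow_lt {D N j : ℕ} (hD : 1 ≤ D) (hN : N < 2 ^ j) :
    N * D ^ (D * j) < (D + 1) ^ (D * j) := by
  rw [pow_mul, pow_mul]
  have h2 : (2 * D ^ D) ^ j ≤ ((D + 1) ^ D) ^ j := Nat.pow_le_pow_left (two_mul_pow_le hD) j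
  refine lt_of_lt_of_le ?_ h2
  rw [mul_pow]
  exact Nat.mul_lt_mul_of_pos_right hN (by positivity)

/-- the number of patterns of signs (positive or not) of linear functionals -/
theorem card_patterns {E K : Type*} [AddCommGroup E] [Module ℝ E] [FiniteDimensional ℝ E]
    [Fintype K] [DecidableEq K] (l : K → E →ₗ[ℝ] ℝ) (𝒜 : Finset (Finset K))
    (h𝒜 : ∀ s ∈ 𝒜, ∃ x : E, ∀ k, k ∈ s ↔ 0 < l k x) :
    𝒜.card ≤ (Fintype.card K + 1) ^ Module.finrank ℝ E := by
  classical
  have hsh : ∀ s : Finset K, 𝒜.Shatters s → s.card ≤ Module.finrank ℝ E := by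
    intro s hs
    by_contra hcon
    have hdep : ¬ LinearIndependent ℝ (fun k : s => l k) := by
      intro hli
      have h1 := hli.fintype_card_le_finrank
      rw [Fintype.card_coe, Subspace.dual_finrank_eq] at h1
      exact hcon h1
    rw [Fintype.not_linearIndependent_iff] at hdep
    obtain ⟨g₀, hg₀, i₀, hi₀⟩ := hdep
    obtain ⟨g, hg, i, hi⟩ : ∃ g : s → ℝ, ∑ k, g k • l (k : K) = 0 ∧ ∃ i, 0 < g i := by
      rcases lt_or_gt_of_ne hi₀ with h | h
      · refine ⟨fun k => (-1) * g₀ k, ?_, i₀, by simpa using h⟩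
        have h1 : ∑ k, ((-1 : ℝ) * g₀ k) • l (k : K) = (-1 : ℝ) • ∑ k, g₀ k • l (k : K) := by
          rw [smul_sum]
          exact sum_congr rfl fun k _ => mul_smul _ _ _
        rw [h1, hg₀, smul_zero]
      · exact ⟨g₀, hg₀, i₀, h⟩
    obtain ⟨u, hu, hut⟩ := hs (t := (univ.filter fun k : s => 0 < g k).map
      (Function.Embedding.subtype _)) (by
        intro x hx
        rw [mem_map] at hx
        obtain ⟨y, -, rfl⟩ := hx
        exact y.2)
    obtain ⟨x, hx⟩ := h𝒜 u hu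
    have hiff : ∀ k : s, 0 < l k x ↔ 0 < g k := by
      intro k
      rw [← hx]
      constructor
      · intro h
        have h1 : (k : K) ∈ s ∩ u := mem_inter.2 ⟨k.2, h⟩
        rw [hut, mem_map] at h1
        obtain ⟨y, hy, hyk⟩ := h1
        have : y = k := Subtype.ext hyk
        rw [← this]
        exact (mem_filter.1 hy).2
      · intro h
        have h1 : (k : K) ∈ s ∩ u := by
          rw [hut, mem_map]
          exact ⟨k, mem_filter.2 ⟨mem_univ _, h⟩, rfl⟩
        exact (mem_inter.1 h1).2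
    have h0 : ∑ k : s, g k * l k x = 0 := by
      have := congrArg (fun φ : E →ₗ[ℝ] ℝ => φ x) hg
      simpa [LinearMap.sum_apply] using this
    have hpos : 0 < ∑ k : s, g k * l k x := by
      refine sum_pos' (fun k _ => ?_) ⟨i, mem_univ _, mul_pos hi ((hiff i).2 hi)⟩
      by_cases h : 0 < g k
      · exact (mul_pos h ((hiff k).2 h)).le
      · have h2 : ¬ 0 < l k x := fun h' => h ((hiff k).1 h')
        exact mul_nonneg_of_nonpos_of_nonpos (not_lt.1 h) (not_lt.1 h2)
    rw [h0] at hpos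
    exact lt_irrefl _ hpos
  have hvc : 𝒜.vcDim ≤ Module.finrank ℝ E := by
    unfold vcDim
    exact Finset.sup_le fun s hs => hsh s (mem_shatterer.1 hs)
  set D := Module.finrank ℝ E with hD
  calc 𝒜.card ≤ 𝒜.shatterer.card := card_le_card_shatterer 𝒜
    _ ≤ ∑ k ∈ Iic 𝒜.vcDim, (Fintype.card K).choose k := card_shatterer_le_sum_vcDim
    _ ≤ ∑ k ∈ Iic D, (Fintype.card K).choose k :=
        sum_le_sum_of_subset (Iic_subset_Iic.2 hvc)
    _ ≤ ∑ k ∈ Iic D, Fintype.card K ^ k * D.choose k := by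
        refine sum_le_sum fun k hk => ?_
        have h1 : (Fintype.card K).choose k ≤ Fintype.card K ^ k := Nat.choose_le_pow _ _
        have h2 : 1 ≤ D.choose k := Nat.choose_pos (mem_Iic.1 hk)
        calc (Fintype.card K).choose k ≤ Fintype.card K ^ k * 1 := by simpa using h1
          _ ≤ _ := Nat.mul_le_mul_left _ h2
    _ = (Fintype.card K + 1) ^ D := by
        rw [add_pow]
        refine sum_congr ?_ fun k _ => by simp
        ext k
        simp

/-- **Central points.** A point `(b, c)` of the product of two convex sets which is on the side of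
almost all given points, with respect to every functional of a finite list. -/
theorem exists_center {E F Ω K L : Type*} [AddCommGroup E] [Module ℝ E] [FiniteDimensional ℝ E]
    [AddCommGroup F] [Module ℝ F] [FiniteDimensional ℝ F] [Fintype K] [Fintype L]
    (f : K → E →ₗ[ℝ] ℝ) (g : L → F →ₗ[ℝ] ℝ) {S : Set E} {T : Set F} (hS : Convex ℝ S)
    (hT : Convex ℝ T) (𝒦 : Finset Ω) (β : Ω → E) (γ : Ω → F) (h𝒦 : 𝒦.Nonempty)
    (hβ : ∀ ω ∈ 𝒦, β ω ∈ S) (hγ : ∀ ω ∈ 𝒦, γ ω ∈ T) {D : ℕ} (hD : Module.finrank ℝ (E × F) ≤ D) :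
    ∃ b ∈ S, ∃ c ∈ T,
      (∀ k, (D + 1) * (𝒦.filter fun ω => ¬ 0 < f k (β ω)).card < 𝒦.card → 0 < f k b) ∧
      (∀ k, (D + 1) * (𝒦.filter fun ω => ¬ 0 < g k (γ ω)).card < 𝒦.card → 0 < g k c) ∧
      (∀ k, (D + 1) * (𝒦.filter fun ω => 0 < g k (γ ω)).card < 𝒦.card → ¬ 0 < g k c) := by
  classical
  set P : Option (K ⊕ (L ⊕ L)) → E × F → Prop := fun j p =>
    match j with
    | none => True
    | some (Sum.inl k) => 0 < f k p.1
    | some (Sum.inr (Sum.inl k)) => 0 < g k p.2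
    | some (Sum.inr (Sum.inr k)) => ¬ 0 < g k p.2 with hP
  have hPc : ∀ j, Convex ℝ {p : E × F | P j p} := by
    intro j
    rcases j with _ | k | k | k
    · simp only [hP]; exact convex_univ
    · have := convex_halfSpace_gt (f := fun p : E × F => f k p.1) (𝕜 := ℝ)
        ⟨fun x y => by simp, fun a x => by simp⟩ 0
      exact this
    · have := convex_halfSpace_gt (f := fun p : E × F => g k p.2) (𝕜 := ℝ)
        ⟨fun x y => by simp, fun a x => by simp⟩ 0
      exact this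
    · have h1 := convex_halfSpace_le (f := fun p : E × F => g k p.2) (𝕜 := ℝ)
        ⟨fun x y => by simp, fun a x => by simp⟩ 0
      have h2 : {p : E × F | P (some (Sum.inr (Sum.inr k))) p} = {p : E × F | g k p.2 ≤ 0} := by
        ext p
        exact not_lt
      rw [h2]
      exact h1
  obtain ⟨bad, hmb⟩ : ∃ bad : Option (K ⊕ (L ⊕ L)) → Finset Ω,
      ∀ j ω, ω ∈ bad j ↔ ω ∈ 𝒦 ∧ ¬ P j (β ω, γ ω) :=
    ⟨fun j => 𝒦.filter fun ω => ¬ P j (β ω, γ ω), fun j ω => mem_filter⟩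
  set G : Option (K ⊕ (L ⊕ L)) → Set (E × F) := fun j =>
    {p | (p.1 ∈ S ∧ p.2 ∈ T) ∧ ((D + 1) * (bad j).card < 𝒦.card → P j p)} with hG
  have hGc : ∀ j, Convex ℝ (G j) := by
    intro j
    have hST : Convex ℝ {p : E × F | p.1 ∈ S ∧ p.2 ∈ T} := hS.prod hT
    by_cases h : (D + 1) * (bad j).card < 𝒦.card
    · have : G j = {p : E × F | p.1 ∈ S ∧ p.2 ∈ T} ∩ {p : E × F | P j p} := by
        ext p
        simp only [hG, Set.mem_ofPred_eq, Set.mem_inter_iff]
        exact ⟨fun hp => ⟨hp.1, hp.2 h⟩, fun hp => ⟨hp.1, fun _ => hp.2⟩⟩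
      rw [this]
      exact hST.inter (hPc j)
    · have : G j = {p : E × F | p.1 ∈ S ∧ p.2 ∈ T} := by
        ext p
        simp only [hG, Set.mem_ofPred_eq]
        exact ⟨fun hp => hp.1, fun hp => ⟨hp, fun h' => absurd h' h⟩⟩
      rw [this]
      exact hST
  have hne : (⋂ j ∈ (univ : Finset (Option (K ⊕ (L ⊕ L)))), G j).Nonempty := by
    apply Convex.helly_theorem' (𝕜 := ℝ) fun j _ => hGc j
    intro I _ hI
    set I' := I.filter fun j => (D + 1) * (bad j).card < 𝒦.card with hI'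
    obtain ⟨ω, hω, hωI⟩ : ∃ ω ∈ 𝒦, ∀ j ∈ I', ω ∉ bad j := by
      by_contra hcon
      push Not at hcon
      have h1 : 𝒦 ⊆ I'.biUnion bad := by
        intro ω hω
        obtain ⟨j, hj, h⟩ := hcon ω hω
        exact mem_biUnion.2 ⟨j, hj, h⟩
      have h2 : 𝒦.card ≤ ∑ j ∈ I', (bad j).card := (card_le_card h1).trans card_biUnion_le
      rcases I'.eq_empty_or_nonempty with h3 | h3
      · rw [h3, sum_empty] at h2
        have := h𝒦.card_pos
        omega
      · have h4 : ∑ j ∈ I', (D + 1) * (bad j).card < ∑ j ∈ I', 𝒦.card :=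
          sum_lt_sum_of_nonempty h3 fun j hj => (mem_filter.1 hj).2
        rw [← mul_sum, sum_const, smul_eq_mul] at h4
        have h5 : I'.card ≤ D + 1 := (card_filter_le _ _).trans (hI.trans (by omega))
        have h6 : (D + 1) * 𝒦.card ≤ (D + 1) * ∑ j ∈ I', (bad j).card := Nat.mul_le_mul_left _ h2
        have h7 : I'.card * 𝒦.card ≤ (D + 1) * 𝒦.card := Nat.mul_le_mul_right _ h5
        omega
    refine ⟨(β ω, γ ω), ?_⟩
    rw [Set.mem_iInter₂]
    intro j hj
    refine ⟨⟨hβ ω hω, hγ ω hω⟩, fun h => ?_⟩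
    by_contra hcon
    exact hωI j (mem_filter.2 ⟨hj, h⟩) ((hmb j ω).2 ⟨hω, hcon⟩)
  obtain ⟨p, hp⟩ := hne
  rw [Set.mem_iInter₂] at hp
  have h0 := hp none (mem_univ _)
  refine ⟨p.1, h0.1.1, p.2, h0.1.2, fun k hk => ?_, fun k hk => ?_, fun k hk => ?_⟩
  · refine (hp (some (Sum.inl k)) (mem_univ _)).2 ?_
    refine lt_of_le_of_lt (Nat.mul_le_mul_left _ (card_le_card ?_)) hk
    intro ω hω
    have h1 := (hmb _ _).1 hω
    exact mem_filter.2 ⟨h1.1, h1.2⟩
  · refine (hp (some (Sum.inr (Sum.inl k))) (mem_univ _)).2 ?_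
    refine lt_of_le_of_lt (Nat.mul_le_mul_left _ (card_le_card ?_)) hk
    intro ω hω
    have h1 := (hmb _ _).1 hω
    exact mem_filter.2 ⟨h1.1, h1.2⟩
  · refine (hp (some (Sum.inr (Sum.inr k))) (mem_univ _)).2 ?_
    refine lt_of_le_of_lt (Nat.mul_le_mul_left _ (card_le_card ?_)) hk
    intro ω hω
    have h1 := (hmb _ _).1 hω
    exact mem_filter.2 ⟨h1.1, not_not.1 h1.2⟩

end Pool.Agent.U6.BL
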