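import Pool.Agent.U6.BL.Final
import Pool.Agent.N477.MD8
set_option autoImplicit false

/-!
# Generic right hand sides, and matrices with bounded minors
-/

namespace Pool.Agent.U6.BL

open Finset Matrix Pool.Agent.N597.QP

variable {m n : ℕ} {A : Fin m → Fin n → ℝ} {b : Fin m → ℝ} {c : Fin n → ℝ}

/-- vertices are extreme points -/
lemma isVertex_iff {q : Fin n → ℝ} :
    IsVertex A b q ↔ q ∈ (N477.MD.Poly A b).extremePoints ℝ := by
  constructor
  · intro hq
    refine N477.MD.ext_of_tight hq.1 fun x hx => ?_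
    have h1 := hq.2 (q + x) fun i hi => by
      have h2 : A i ⬝ᵥ x = 0 := hx i (mem_tight.1 hi)
      rw [dotProduct_add, h2, add_zero]
      exact mem_tight.1 hi
    simpa using h1
  · intro hq
    refine ⟨hq.1, fun q' hq' => ?_⟩
    have h1 : q' - q = 0 := by
      refine N477.MD.ext_pointed hq fun j hj => ?_
      have h2 : A j ⬝ᵥ q = b j := hj
      rw [dotProduct_sub, hq' j (mem_tight.2 h2), h2, sub_self]
    exact sub_eq_zero.1 h1

/-- right hand sides on which no slack functional vanishes are nondegenerate -/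
lemma nondeg_of_ne (h : ∀ B j, ok A B → j ∉ B → fB A (B, j) b ≠ 0) : Nondeg A b := by
  classical
  intro q hq
  obtain ⟨β, h1, h2, h3⟩ := N477.MD.exists_basis A (T := {i | i ∈ tight A b q}) fun x hx => by
    have h4 := hq.2 (q + x) fun i hi => by
      rw [dotProduct_add, hx i hi, add_zero]
      exact mem_tight.1 hi
    simpa using h4
  set B : Finset (Fin m) := univ.image β with hB
  have hBc : B.card = n := by
    rw [hB, card_image_of_injective _ h2, card_univ, Fintype.card_fin]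
  have hBT : B ⊆ tight A b q := by
    intro i hi
    obtain ⟨k, -, rfl⟩ := mem_image.1 hi
    exact h1 k
  have hd : (rowMat A (num B hBc)).det ≠ 0 := by
    intro h0
    obtain ⟨v, hv, hv0⟩ := Matrix.exists_mulVec_eq_zero_iff.2 h0
    apply hv
    refine N477.MD.eq_zero_of_basis h3 fun k => ?_
    obtain ⟨i, hi⟩ := (range_num B hBc (β k)).1 (mem_image_of_mem _ (mem_univ k))
    rw [← hi]
    exact congrFun hv0 i
  have hu : IsUnit (rowMat A (num B hBc)).det := isUnit_iff_ne_zero.2 hd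
  have hBe : B = tight A b q := by
    refine Subset.antisymm hBT fun j hj => ?_
    by_contra hjB
    apply h B j ⟨hBc, hd⟩ hjB
    rw [fB_apply A hBc]
    have e : rowMat A (num B hBc) *ᵥ q = fun i => b (num B hBc i) :=
      funext fun k => mem_tight.1 (hBT (num_mem B hBc k))
    rw [← e, mulVec_mulVec, nonsing_inv_mul _ hu, one_mulVec, mem_tight.1 hj, sub_self]
  rw [← hBe]
  exact hBc

/-- **Nondegenerate right hand sides are dense.** -/
theorem dense_nondeg (A : Fin m → Fin n → ℝ) : Dense {b : Fin m → ℝ | Nondeg A b} := by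
  classical
  have h1 : ∀ k : Finset (Fin m) × Fin m, ok A k.1 → k.2 ∉ k.1 →
      ∀ᵐ b : Fin m → ℝ ∂MeasureTheory.volume, fB A k b ≠ 0 := by
    rintro ⟨B, j⟩ ⟨hB, hd⟩ hj
    have hne : LinearMap.ker (fB A (B, j)) ≠ ⊤ := by
      intro htop
      have h2 : (Pi.single j 1 : Fin m → ℝ) ∈ LinearMap.ker (fB A (B, j)) := by
        rw [htop]; trivial
      rw [LinearMap.mem_ker, fB_apply A hB] at h2
      have h3 : (fun i => (Pi.single j 1 : Fin m → ℝ) (num B hB i)) = 0 := by
        funext i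
        have : num B hB i ≠ j := fun h => hj (h ▸ num_mem B hB i)
        simp [this]
      rw [h3, mulVec_zero, dotProduct_zero] at h2
      simp at h2
    have h4 := MeasureTheory.Measure.addHaar_submodule (MeasureTheory.volume) _ hne
    rw [MeasureTheory.ae_iff]
    have e : {b : Fin m → ℝ | ¬ fB A (B, j) b ≠ 0} = (LinearMap.ker (fB A (B, j)) : Set _) := by
      ext b
      simp
    rw [e]
    exact h4
  have h2 : ∀ᵐ b : Fin m → ℝ ∂MeasureTheory.volume, Nondeg A b := by
    have h3 : ∀ᵐ b : Fin m → ℝ ∂MeasureTheory.volume, ∀ k : Finset (Fin m) × Fin m,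
        ok A k.1 → k.2 ∉ k.1 → fB A k b ≠ 0 := by
      rw [MeasureTheory.ae_all_iff]
      intro k
      by_cases hk1 : ok A k.1
      · by_cases hk2 : k.2 ∉ k.1
        · filter_upwards [h1 k hk1 hk2] with b hb _ _
          exact hb
        · filter_upwards with b _ h
          exact absurd h hk2
      · filter_upwards with b h
        exact absurd h hk1
    filter_upwards [h3] with b hb
    exact nondeg_of_ne fun B j hB hj => hb (B, j) hB hj
  exact MeasureTheory.Measure.dense_of_ae h2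

/-- the two ends of an edge of a nondegenerate polyhedron -/
lemma edge_rows {x y : Fin n → ℝ} (hx : IsVertex A b x) (hc : (tight A b x).card = n)
    (hy : IsVertex A b y) (hne : y ≠ x)
    (hexp : IsExposed ℝ (N477.MD.Poly A b) (segment ℝ x y)) :
    ∃ r, (tight A b x).erase r ⊆ tight A b y := by
  classical
  obtain ⟨l, hl⟩ := N477.MD.exposed_vec hexp ⟨x, left_mem_segment ℝ x y⟩
  set z : Fin n → ℝ := (1 / 2 : ℝ) • x + (1 / 2 : ℝ) • y with hz
  have hzs : z ∈ segment ℝ x y := ⟨1 / 2, 1 / 2, by norm_num, by norm_num, by norm_num, rfl⟩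
  have hzm : N477.MD.MaxAt (N477.MD.Poly A b) l z := by
    have : z ∈ N477.MD.face (N477.MD.Poly A b) l := hl ▸ hzs
    exact this
  -- directions which keep the common tight rows are parallel to the edge
  have key : ∀ d : Fin n → ℝ, (∀ i, i ∈ tight A b x → i ∈ tight A b y → A i ⬝ᵥ d = 0) →
      ∃ s : ℝ, d = s • (y - x) := by
    intro d hd
    have htz : ∀ j ∈ N477.MD.tight A b z, A j ⬝ᵥ d = 0 := by
      intro j hj
      have h1 : A j ⬝ᵥ z = b j := hj
      rw [hz, dotProduct_add, dotProduct_smul, dotProduct_smul, smul_eq_mul, smul_eq_mul] at h1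
      have h2 := hx.1 j
      have h3 := hy.1 j
      exact hd j (mem_tight.2 (by linarith)) (mem_tight.2 (by linarith))
    obtain ⟨s, hs, h1⟩ := N477.MD.step_in hzm.1 (e := d) fun j hj => (htz j hj).le
    obtain ⟨s', hs', h2⟩ := N477.MD.step_in hzm.1 (e := -d) fun j hj => by
      rw [dotProduct_neg, htz j hj, neg_zero]
    have h3 := hzm.2 _ (h1 s hs.le le_rfl)
    have h4 := hzm.2 _ (h2 s' hs'.le le_rfl)
    rw [dotProduct_add, dotProduct_smul, smul_eq_mul] at h3
    rw [dotProduct_add, dotProduct_smul, dotProduct_neg, smul_eq_mul] at h4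
    have h5 : l ⬝ᵥ d ≤ 0 := by
      by_contra hcon
      have := mul_pos hs (not_le.1 hcon)
      linarith
    have h6 : 0 ≤ l ⬝ᵥ d := by
      by_contra hcon
      have := mul_neg_of_pos_of_neg hs' (not_le.1 hcon)
      linarith
    have h7 : l ⬝ᵥ d = 0 := le_antisymm h5 h6
    have h8 : z + s • d ∈ segment ℝ x y := by
      rw [hl]
      refine ⟨h1 s hs.le le_rfl, fun p hp => ?_⟩
      rw [dotProduct_add, dotProduct_smul, h7, smul_zero, add_zero]
      exact hzm.2 p hp
    obtain ⟨u, v, hu, hv, huv, he⟩ := h8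
    refine ⟨(v - 1 / 2) / s, ?_⟩
    have e1 : s • d = (v - 1 / 2) • (y - x) := by
      have e2 : s • d = (u • x + v • y) - z := by rw [he]; simp
      rw [e2, hz]
      have hu' : u = 1 - v := by linarith
      rw [hu']
      module
    rw [div_eq_inv_mul, mul_smul, ← e1, smul_smul, inv_mul_cancel₀ hs.ne', one_smul]
  -- two rows which are not tight at `y` are impossible
  set Mt := rowMat A (num (tight A b x) hc) with hMt
  have hu : IsUnit Mt.det := isUnit_iff_ne_zero.2 (hx.det_ne hc)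
  have hdir : ∀ k, ∃ d : Fin n → ℝ, A (num (tight A b x) hc k) ⬝ᵥ d = 1 ∧
      ∀ k', k' ≠ k → A (num (tight A b x) hc k') ⬝ᵥ d = 0 := by
    intro k
    refine ⟨Mt⁻¹ *ᵥ Pi.single k 1, ?_, fun k' hk' => ?_⟩
    · have h1 : Mt *ᵥ (Mt⁻¹ *ᵥ Pi.single k 1) = Pi.single k 1 := by
        rw [mulVec_mulVec, mul_nonsing_inv _ hu, one_mulVec]
      have h2 := congrFun h1 k
      rw [Pi.single_eq_same] at h2
      exact h2
    · have h1 : Mt *ᵥ (Mt⁻¹ *ᵥ Pi.single k 1) = Pi.single k 1 := by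
        rw [mulVec_mulVec, mul_nonsing_inv _ hu, one_mulVec]
      have h2 := congrFun h1 k'
      rw [Pi.single_eq_of_ne hk'] at h2
      exact h2
  obtain ⟨r, hr, hry⟩ : ∃ r, r ∈ tight A b x ∧ r ∉ tight A b y := by
    by_contra hcon
    push Not at hcon
    exact hne (hx.2 y fun i hi => mem_tight.1 (hcon i hi))
  refine ⟨r, fun i hi => ?_⟩
  obtain ⟨hir, hix⟩ := mem_erase.1 hi
  by_contra hiy
  obtain ⟨k, rfl⟩ := (range_num _ hc r).1 hr
  obtain ⟨k', rfl⟩ := (range_num _ hc i).1 hix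
  have hkk : k' ≠ k := fun h => hir (by rw [h])
  obtain ⟨d, hd1, hd2⟩ := hdir k
  obtain ⟨d', hd1', hd2'⟩ := hdir k'
  have hz1 : ∀ i, i ∈ tight A b x → i ∈ tight A b y → A i ⬝ᵥ d = 0 := by
    intro i hi1 hi2
    obtain ⟨k2, rfl⟩ := (range_num _ hc i).1 hi1
    exact hd2 k2 fun h => hry (h ▸ hi2)
  have hz2 : ∀ i, i ∈ tight A b x → i ∈ tight A b y → A i ⬝ᵥ d' = 0 := by
    intro i hi1 hi2
    obtain ⟨k2, rfl⟩ := (range_num _ hc i).1 hi1
    exact hd2' k2 fun h => hiy (h ▸ hi2)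
  obtain ⟨s, hs⟩ := key d hz1
  obtain ⟨s', hs'⟩ := key d' hz2
  have e1 : A (num (tight A b x) hc k) ⬝ᵥ d = s * (A (num (tight A b x) hc k) ⬝ᵥ (y - x)) := by
    rw [hs, dotProduct_smul, smul_eq_mul]
  have e2 : A (num (tight A b x) hc k) ⬝ᵥ d' = s' * (A (num (tight A b x) hc k) ⬝ᵥ (y - x)) := by
    rw [hs', dotProduct_smul, smul_eq_mul]
  have e3 : A (num (tight A b x) hc k') ⬝ᵥ d' = s' * (A (num (tight A b x) hc k') ⬝ᵥ (y - x)) := by
    rw [hs', dotProduct_smul, smul_eq_mul]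
  rw [hd1] at e1
  rw [hd2' k (Ne.symm hkk)] at e2
  rw [hd1'] at e3
  have h1 : A (num (tight A b x) hc k) ⬝ᵥ (y - x) ≠ 0 := by
    intro h; rw [h, mul_zero] at e1; exact one_ne_zero e1
  have h2 : s' = 0 := by
    rcases mul_eq_zero.1 e2.symm with h | h
    · exact h
    · exact absurd h h1
  rw [h2, zero_mul] at e3
  exact one_ne_zero e3

/-- polyhedra with trivial recession cone are compact -/
lemma isCompact_poly (hA : ∀ d : Fin n → ℝ, (∀ i, A i ⬝ᵥ d ≤ 0) → d = 0) (b : Fin m → ℝ) :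
    IsCompact (N477.MD.Poly A b) := by
  classical
  obtain ⟨δ, hδ, hδ2⟩ : ∃ δ : ℝ, 0 < δ ∧ ∀ d : Fin n → ℝ, ‖d‖ = 1 → ∃ i, δ ≤ A i ⬝ᵥ d := by
    rcases (Metric.sphere (0 : Fin n → ℝ) 1).eq_empty_or_nonempty with h0 | hne
    · refine ⟨1, one_pos, fun d hd => ?_⟩
      have : d ∈ Metric.sphere (0 : Fin n → ℝ) 1 := by simpa using hd
      rw [h0] at this
      exact absurd this (Set.notMem_empty d)
    · have hm : (univ : Finset (Fin m)).Nonempty := by
        obtain ⟨d, hd⟩ := hne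
        by_contra hcon
        rw [not_nonempty_iff_eq_empty] at hcon
        have : d = 0 := hA d fun i => absurd (mem_univ i) (by rw [hcon]; simp)
        rw [this] at hd
        simp at hd
      have hcont : Continuous fun d : Fin n → ℝ => univ.sup' hm fun i => A i ⬝ᵥ d :=
        Continuous.finset_sup'_apply hm fun i _ => N477.MD.continuous_dot (A i)
      obtain ⟨d₀, hd₀, hmin⟩ := (isCompact_sphere (0 : Fin n → ℝ) 1).exists_isMinOn hne
        hcont.continuousOn
      refine ⟨univ.sup' hm fun i => A i ⬝ᵥ d₀, ?_, fun d hd => ?_⟩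
      · rw [lt_sup'_iff]
        by_contra hcon
        push Not at hcon
        have : d₀ = 0 := hA d₀ fun i => hcon i (mem_univ i)
        rw [this] at hd₀
        simp at hd₀
      · have h1 : univ.sup' hm (fun i => A i ⬝ᵥ d₀) ≤ univ.sup' hm fun i => A i ⬝ᵥ d :=
          hmin (by simpa using hd)
        obtain ⟨i, -, hi⟩ := exists_mem_eq_sup' hm fun i => A i ⬝ᵥ d
        exact ⟨i, by rw [← hi]; exact h1⟩
  have hbd : Bornology.IsBounded (N477.MD.Poly A b) := by
    rw [isBounded_iff_forall_norm_le]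
    refine ⟨‖b‖ / δ, fun x hx => ?_⟩
    rcases eq_or_ne x 0 with rfl | hx0
    · rw [norm_zero]; positivity
    · have hxn : 0 < ‖x‖ := norm_pos_iff.2 hx0
      obtain ⟨i, hi⟩ := hδ2 (‖x‖⁻¹ • x) (by
        rw [norm_smul, norm_inv, norm_norm, inv_mul_cancel₀ hxn.ne'])
      rw [dotProduct_smul, smul_eq_mul] at hi
      have h1 : A i ⬝ᵥ x ≤ b i := hx i
      have h2 : b i ≤ ‖b‖ := (le_abs_self _).trans (norm_le_pi_norm b i)
      rw [le_div_iff₀ hδ]
      have h3 : δ * ‖x‖ ≤ A i ⬝ᵥ x := by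
        calc δ * ‖x‖ ≤ (‖x‖⁻¹ * (A i ⬝ᵥ x)) * ‖x‖ := mul_le_mul_of_nonneg_right hi hxn.le
          _ = A i ⬝ᵥ x := by field_simp
      linarith
  exact Metric.isCompact_of_isClosed_isBounded N477.MD.isClosed_poly hbd

/-- **Short improving paths** for rows with bounded coefficients -/
lemma bal_path (hA : ∀ d : Fin n → ℝ, (∀ i, A i ⬝ᵥ d ≤ 0) → d = 0) {κ : ℝ}
    (hκ : N477.MD.Bal A κ) (hN : Nondeg A b) (c : Fin n → ℝ) {q₀ : Fin n → ℝ}
    (hq₀ : IsVertex A b q₀) :
    ∃ (T : ℕ) (q : ℕ → Fin n → ℝ), T ≤ n * N477.MD.Lc n κ ∧ q 0 = q₀ ∧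
      (∀ t ≤ T, IsVertex A b (q t)) ∧
      (∀ t < T, c ⬝ᵥ q t < c ⬝ᵥ q (t + 1) ∧
        ∃ r, (tight A b (q t)).erase r ⊆ tight A b (q (t + 1))) ∧
      ∀ p, Feas A b p → c ⬝ᵥ p ≤ c ⬝ᵥ q T := by
  obtain ⟨N, w, hNle, hw, hp, hmax⟩ := N477.MD.compact_path (isCompact_poly hA b) hκ c
    (isVertex_iff.1 hq₀)
  obtain ⟨f, hf0, hfN, hf⟩ := hp.exists_seq
  have hv : ∀ t ≤ N, IsVertex A b (f t) := by
    intro t ht
    rcases Nat.lt_or_ge t N with h | h
    · exact isVertex_iff.2 (hf t h).1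
    · have : t = N := le_antisymm ht h
      rw [this, hfN]
      exact isVertex_iff.2 hw
  refine ⟨N, f, hNle, hf0, hv, fun t ht => ?_, ?_⟩
  · obtain ⟨h1, h2, h3, h4⟩ := hf t ht
    refine ⟨h4, edge_rows (hv t ht.le) (hN _ (hv t ht.le)) (hv (t + 1) ht) ?_ h3⟩
    intro h
    rw [h] at h4
    exact lt_irrefl _ h4
  · intro p hp
    rw [hfN]
    exact hmax.2 p hp

/-- integer matrices with bounded minors of order `n` -/
lemma bal_of_minors (Z : Fin m → Fin n → ℤ) {Δ : ℕ}
    (hZ : ∀ e : Fin n → Fin m, |(Matrix.of fun i => Z (e i)).det| ≤ (Δ : ℤ)) :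
    N477.MD.Bal (fun i j => (Z i j : ℝ)) (Δ : ℝ) := by
  intro B l β hB hβ k
  set Mr : Matrix (Fin n) (Fin n) ℝ := Matrix.of fun i j => (Z (B i) j : ℝ) with hMr
  have hcast : ∀ e : Fin n → Fin m, (Matrix.of fun i j => (Z (e i) j : ℝ)).det =
      (((Matrix.of fun i => Z (e i)).det : ℤ) : ℝ) := by
    intro e
    have h := (Int.castRingHom ℝ).map_det (Matrix.of fun i => Z (e i))
    have e1 : (Int.castRingHom ℝ).mapMatrix (Matrix.of fun i => Z (e i)) =
        Matrix.of fun i j => (Z (e i) j : ℝ) := by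
      ext i j
      simp
    rw [e1] at h
    rw [← h]
    simp
  have hne : Mr.det ≠ 0 := by
    have h1 : LinearIndependent ℝ Mr.row := hB
    rw [Matrix.linearIndependent_rows_iff_isUnit] at h1
    exact ((Matrix.isUnit_iff_isUnit_det _).1 h1).ne_zero
  have hge : 1 ≤ |Mr.det| := by
    rw [hMr, hcast] at hne ⊢
    have h1 : (Matrix.of fun i => Z (B i)).det ≠ 0 := by
      intro h
      rw [h] at hne
      simp at hne
    have h2 : 1 ≤ |(Matrix.of fun i => Z (B i)).det| := Int.one_le_abs h1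
    exact_mod_cast h2
  have hup : (Mr.updateRow k fun j => (Z l j : ℝ)).det = β k * Mr.det := by
    have h1 : (fun j => (Z l j : ℝ)) = ∑ i, β i • Mr i := hβ
    rw [h1, Matrix.det_updateRow_sum, smul_eq_mul]
  have hup2 : (Mr.updateRow k fun j => (Z l j : ℝ)) =
      Matrix.of fun i j => (Z (Function.update B k l i) j : ℝ) := by
    ext i j
    by_cases h : i = k
    · subst h; simp
    · rw [Matrix.updateRow_ne h]
      simp [hMr, Function.update_of_ne h]
  have hle : |(Mr.updateRow k fun j => (Z l j : ℝ)).det| ≤ (Δ : ℝ) := by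
    rw [hup2, hcast]
    have := hZ (Function.update B k l)
    exact_mod_cast this
  rw [hup, abs_mul] at hle
  have h0 : 0 ≤ |β k| := abs_nonneg _
  nlinarith

end Pool.Agent.U6.BL
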