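import Pool.Agent.U6.BL.Geo
set_option autoImplicit false

/-!
# The blind pivot rule
-/

namespace Pool.Agent.U6.BL

open Finset Matrix Pool.Agent.N597.QP Pool.Agent.N597.QP.Str

variable {m n : ℕ}

section fam

variable {A : Fin m → Fin n → ℝ} {𝓑 : Set (Fin m → ℝ)} {𝓒 : Set (Fin n → ℝ)}
  (hb : ∀ b ∈ 𝓑, ∀ c ∈ 𝓒, ∃ μ, ∀ p, Feas A b p → c ⬝ᵥ p ≤ μ)

lemma pos_iff (θ : Par A 𝓑 𝓒) (B : Finset (Fin m)) (j : Fin m) :
    (fam A 𝓑 𝓒 hb).pos θ B j ↔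
      if j ∈ B then 0 < gC A (B, j) θ.1.2 else 0 < fB A (B, j) θ.1.1 := Iff.rfl

/-- few linear programs have all the combinatorial types -/
theorem exists_reps (hm : 1 ≤ m) :
    ∃ 𝒦 : Finset (Par A 𝓑 𝓒), 𝒦.card < 2 ^ (2 * m * (m + n) + 1) ∧
      ∀ θ : Par A 𝓑 𝓒, ∃ ω ∈ 𝒦, ∀ B j,
        (fam A 𝓑 𝓒 hb).pos θ B j ↔ (fam A 𝓑 𝓒 hb).pos ω B j := by
  classical
  set l : Finset (Fin m) × Fin m → ((Fin m → ℝ) × (Fin n → ℝ)) →ₗ[ℝ] ℝ := fun k =>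
    if k.2 ∈ k.1 then (gC A k).comp (LinearMap.snd ℝ _ _) else
      (fB A k).comp (LinearMap.fst ℝ _ _) with hl
  have hlp : ∀ (θ : Par A 𝓑 𝓒) (k : Finset (Fin m) × Fin m),
      0 < l k θ.1 ↔ (fam A 𝓑 𝓒 hb).pos θ k.1 k.2 := by
    intro θ k
    rw [pos_iff, hl]
    by_cases h : k.2 ∈ k.1
    · simp [h]
    · simp [h]
  set pat : Par A 𝓑 𝓒 → Finset (Finset (Fin m) × Fin m) := fun θ =>
    univ.filter fun k => 0 < l k θ.1 with hpat
  have hpm : ∀ (θ : Par A 𝓑 𝓒) (k : Finset (Fin m) × Fin m), k ∈ pat θ ↔ 0 < l k θ.1 := by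
    intro θ k
    rw [hpat, mem_filter]
    exact ⟨fun h => h.2, fun h => ⟨mem_univ _, h⟩⟩
  set 𝒜 : Finset (Finset (Finset (Fin m) × Fin m)) :=
    univ.filter fun s => ∃ θ, pat θ = s with h𝒜
  have hex : ∀ s : 𝒜, ∃ θ, pat θ = s := fun s => (mem_filter.1 s.2).2
  choose ρ hρ using hex
  refine ⟨univ.image ρ, ?_, fun θ => ?_⟩
  · have h1 : (univ.image ρ).card ≤ 𝒜.card := by
      refine card_image_le.trans ?_
      rw [card_univ, Fintype.card_coe]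
    have h2 : 𝒜.card ≤ (Fintype.card (Finset (Fin m) × Fin m) + 1) ^
        Module.finrank ℝ ((Fin m → ℝ) × (Fin n → ℝ)) := by
      refine card_patterns l 𝒜 fun s hs => ?_
      obtain ⟨θ, hθ⟩ := (mem_filter.1 hs).2
      refine ⟨θ.1, fun k => ?_⟩
      rw [← hθ, hpat, mem_filter]
      simp
    have h3 : Module.finrank ℝ ((Fin m → ℝ) × (Fin n → ℝ)) = m + n := by
      rw [Module.finrank_prod]; simp
    have h4 : Fintype.card (Finset (Fin m) × Fin m) + 1 ≤ 2 ^ (2 * m) := by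
      rw [Fintype.card_prod, Fintype.card_finset, Fintype.card_fin]
      have h5 : m < 2 ^ m := Nat.lt_two_pow_self
      have h6 : 2 ^ (2 * m) = 2 ^ m * 2 ^ m := by rw [two_mul, pow_add]
      have h7 : 2 ^ m * (m + 1) ≤ 2 ^ m * 2 ^ m := Nat.mul_le_mul_left _ h5
      have h8 : 1 ≤ 2 ^ m := Nat.one_le_two_pow
      rw [h6]
      calc 2 ^ m * m + 1 ≤ 2 ^ m * m + 2 ^ m := by omega
        _ = 2 ^ m * (m + 1) := by ring
        _ ≤ _ := h7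
    calc (univ.image ρ).card ≤ (2 ^ (2 * m)) ^ (m + n) := by
          refine h1.trans (h2.trans ?_)
          rw [h3]
          exact Nat.pow_le_pow_left h4 _
      _ = 2 ^ (2 * m * (m + n)) := by rw [← pow_mul]
      _ < 2 ^ (2 * m * (m + n) + 1) := Nat.pow_lt_pow_right (by norm_num) (by omega)
  · have hmem : pat θ ∈ 𝒜 := mem_filter.2 ⟨mem_univ _, θ, rfl⟩
    refine ⟨ρ ⟨pat θ, hmem⟩, mem_image_of_mem _ (mem_univ _), fun B j => ?_⟩
    have h1 := hρ ⟨pat θ, hmem⟩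
    have h2 : ((B, j) : Finset (Fin m) × Fin m) ∈ pat (ρ ⟨pat θ, hmem⟩) ↔ (B, j) ∈ pat θ := by
      rw [h1]
    have h3 := hlp θ (B, j)
    have h4 := hlp (ρ ⟨pat θ, hmem⟩) (B, j)
    exact h3.symm.trans ((hpm _ _).symm.trans (h2.symm.trans ((hpm _ _).trans h4)))

/-- the signs determine the pivoting system -/
lemma same_inst {θ ω : Par A 𝓑 𝓒}
    (h : ∀ B j, (fam A 𝓑 𝓒 hb).pos θ B j ↔ (fam A 𝓑 𝓒 hb).pos ω B j) :
    (fam A 𝓑 𝓒 hb).V θ = (fam A 𝓑 𝓒 hb).V ω ∧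
      (fam A 𝓑 𝓒 hb).inst θ = (fam A 𝓑 𝓒 hb).inst ω := by
  have hV : (fam A 𝓑 𝓒 hb).V θ = (fam A 𝓑 𝓒 hb).V ω := by
    funext B
    apply propext
    rw [(fam A 𝓑 𝓒 hb).V_iff, (fam A 𝓑 𝓒 hb).V_iff]
    refine and_congr_right fun _ => forall_congr' fun j => forall_congr' fun _ => h B j
  have hV' : VV A θ.1.1 = VV A ω.1.1 := hV
  have hS : SS A θ.1.1 θ.1.2 = SS A ω.1.1 ω.1.2 := by
    funext B
    by_cases hB : VV A θ.1.1 B
    · ext i
      have hB' : VV A ω.1.1 B := by rw [← hV']; exact hB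
      have e1 := (fam A 𝓑 𝓒 hb).S_iff θ B hB i
      have e2 := (fam A 𝓑 𝓒 hb).S_iff ω B hB' i
      have e3 : i ∈ SS A θ.1.1 θ.1.2 B ↔ i ∈ B ∧ (fam A 𝓑 𝓒 hb).pos θ B i := e1
      have e4 : i ∈ SS A ω.1.1 ω.1.2 B ↔ i ∈ B ∧ (fam A 𝓑 𝓒 hb).pos ω B i := e2
      rw [e3, e4, h B i]
    · have hB' : ¬ VV A ω.1.1 B := by rw [← hV']; exact hB
      unfold SS
      rw [if_neg hB, if_neg hB']
  refine ⟨hV, ?_⟩
  change (⟨SS A θ.1.1 θ.1.2, NN (VV A θ.1.1)⟩ : Inst (Fin m)) =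
    ⟨SS A ω.1.1 ω.1.2, NN (VV A ω.1.1)⟩
  rw [hS, hV']

end fam

lemma Reach.mono {R : Type} {f : Inst R} {h : ℕ} : ∀ {B : Finset R}, Reach f h B →
    Reach f (h + 1) B := by
  induction h with
  | zero => intro B hB; exact Or.inl hB
  | succ h ih =>
    intro B hB
    rcases hB with hB | ⟨r, hr, hB⟩
    · exact Or.inl hB
    · exact Or.inr ⟨r, hr, ih hB⟩

lemma Reach.mono' {R : Type} {f : Inst R} {h h' : ℕ} (hh : h ≤ h') {B : Finset R}
    (hB : Reach f h B) : Reach f h' B := by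
  induction h', hh using Nat.le_induction with
  | base => exact hB
  | succ k _ ih => exact ih.mono

/-- an improving path as a path of the pivoting system -/
lemma reach_of_path {A : Fin m → Fin n → ℝ} {b : Fin m → ℝ} {c : Fin n → ℝ} :
    ∀ (T : ℕ) (q : ℕ → Fin n → ℝ), (∀ t ≤ T, IsVertex A b (q t)) →
      (∀ t < T, c ⬝ᵥ q t < c ⬝ᵥ q (t + 1) ∧
        ∃ r, (tight A b (q t)).erase r ⊆ tight A b (q (t + 1))) →
      (∀ p, Feas A b p → c ⬝ᵥ p ≤ c ⬝ᵥ q T) →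
      Reach ⟨SS A b c, NN (VV A b)⟩ T (tight A b (q 0)) := by
  intro T
  induction T with
  | zero =>
    intro q hq _ hopt
    change SS A b c (tight A b (q 0)) = ∅
    rw [SS_tight (hq 0 le_rfl), eq_empty_iff_forall_notMem]
    intro r hr
    obtain ⟨_, q', hq', hlt, _⟩ := mem_improv.1 hr
    exact absurd (hopt q' hq'.1) (not_le.2 hlt)
  | succ T ih =>
    intro q hq hstep hopt
    obtain ⟨hlt, r, hr⟩ := hstep 0 (by omega)
    have h0 := hq 0 (by omega)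
    have h1 := hq 1 (by omega)
    have hr0 : r ∈ tight A b (q 0) := by
      by_contra hcon
      rw [erase_eq_of_notMem hcon] at hr
      have : q 1 = q 0 := h0.2 (q 1) fun i hi => mem_tight.1 (hr hi)
      rw [zero_add, this] at hlt
      exact lt_irrefl _ hlt
    have hri : r ∈ SS A b c (tight A b (q 0)) := by
      rw [SS_tight h0]
      exact mem_improv.2 ⟨hr0, q 1, h1, hlt, hr⟩
    have hne : tight A b (q 1) ≠ tight A b (q 0) := by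
      intro h
      have := h0.eq_of_tight h
      rw [zero_add, this] at hlt
      exact lt_irrefl _ hlt
    refine Or.inr ⟨r, hri, ?_⟩
    have e : NN (VV A b) (tight A b (q 0)) r = tight A b (q 1) :=
      NN_uniq hri ⟨q 1, h1, rfl⟩ hne hr
    change Reach _ T (NN (VV A b) (tight A b (q 0)) r)
    rw [e]
    exact ih (fun t => q (t + 1)) (fun t ht => hq (t + 1) (by omega))
      (fun t ht => hstep (t + 1) (by omega)) hopt

/-- **The blind pivot rule.** -/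
theorem blind (hm : 1 ≤ m) (A : Fin m → Fin n → ℝ) (𝓑 : Set (Fin m → ℝ)) (𝓒 : Set (Fin n → ℝ))
    (H : ℕ) (h𝓑 : Convex ℝ 𝓑) (h𝓒 : Convex ℝ 𝓒) (hd : 𝓑 ⊆ closure {b | b ∈ 𝓑 ∧ Nondeg A b})
    (hb : ∀ b ∈ 𝓑, ∀ c ∈ 𝓒, ∃ μ, ∀ p, Feas A b p → c ⬝ᵥ p ≤ μ)
    (hH : ∀ b ∈ 𝓑, Nondeg A b → ∀ c ∈ 𝓒, ∀ q₀, IsVertex A b q₀ →
      ∃ (T : ℕ) (q : ℕ → Fin n → ℝ), T ≤ H ∧ q 0 = q₀ ∧ (∀ t ≤ T, IsVertex A b (q t)) ∧
        (∀ t < T, c ⬝ᵥ q t < c ⬝ᵥ q (t + 1) ∧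
          ∃ r, (tight A b (q t)).erase r ⊆ tight A b (q (t + 1))) ∧
        ∀ p, Feas A b p → c ⬝ᵥ p ≤ c ⬝ᵥ q T) :
    ∃ rule : List (Finset (Fin m) × Finset (Fin m)) → Fin m,
      ∀ b ∈ 𝓑, Nondeg A b → ∀ c ∈ 𝓒, ∀ q₀, IsVertex A b q₀ →
        ∃ (T : ℕ) (q : ℕ → Fin n → ℝ), T ≤ 10 * m ^ 3 * H ∧ q 0 = q₀ ∧
          (∀ t ≤ T, IsVertex A b (q t)) ∧
          (∀ t < T, c ⬝ᵥ q t < c ⬝ᵥ q (t + 1) ∧
            rule (seen A b c q t) ∈ improv A b c (q t) ∧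
            (tight A b (q t)).erase (rule (seen A b c q t)) ⊆ tight A b (q (t + 1))) ∧
          ∀ p, Feas A b p → c ⬝ᵥ p ≤ c ⬝ᵥ q T := by
  classical
  by_cases hnm : n ≤ m
  swap
  · refine ⟨fun _ => ⟨0, hm⟩, fun b _ hA c _ q₀ hq₀ => ?_⟩
    have h1 := hA q₀ hq₀
    have h2 := card_le_univ (tight A b q₀)
    rw [Fintype.card_fin] at h2
    omega
  set M := fam A 𝓑 𝓒 hb with hM
  obtain ⟨𝒦₀, h𝒦c, h𝒦r⟩ := exists_reps hb (A := A) (𝓑 := 𝓑) (𝓒 := 𝓒) hm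
  set D := m + n with hD
  set C := D * (2 * m * D + 1) with hC
  have hR : ∀ (ω : Par A 𝓑 𝓒) B, M.V ω B → Reach (M.inst ω) H B := by
    rintro ω B ⟨q₀, hq₀, rfl⟩
    obtain ⟨T, q, hT, rfl, h1, h2, h3⟩ := hH _ ω.2.1 ω.2.2.1 _ ω.2.2.2 q₀ hq₀
    exact (reach_of_path T q h1 h2 h3).mono' hT
  -- the strategy for each first observation
  have h1 : ∀ o : Obs (Fin m), ∃ t : Str (Fin m), Safe ∅ t o.2 ∧
      ∀ ω ∈ 𝒦₀.filter (fun ω => M.V ω o.1 ∧ (M.inst ω).ob o.1 = o),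
        (play (M.inst ω) t o.1).length ≤ C * H ∧ (lst o (play (M.inst ω) t o.1)).2 = ∅ := by
    intro o
    refine exists_strategy M (fun 𝒦 h => fam_central A h𝓑 h𝓒 hd hb 𝒦 h) hR C _ o
      (fun ω hω => (mem_filter.1 hω).2) ?_
    exact mul_pow_lt (by omega) (lt_of_le_of_lt (card_filter_le _ _) h𝒦c)
  choose t₀ ht₁ ht₂ using h1
  refine ⟨ruleOf t₀ ⟨0, hm⟩, fun b hb𝓑 hA c hc𝓒 q₀ hq₀ => ?_⟩
  set rule := ruleOf t₀ ⟨0, hm⟩ with hrule
  -- this linear program and its representative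
  set θ : Par A 𝓑 𝓒 := ⟨(b, c), hb𝓑, hA, hc𝓒⟩ with hθ
  obtain ⟨ω, hω, hθω⟩ := h𝒦r θ
  obtain ⟨hVe, hIe⟩ := same_inst hb hθω
  rw [← hM] at hVe hIe
  set f := M.inst θ with hf
  have hfS : f.S = SS A b c := rfl
  have hfN : f.N = NN (VV A b) := rfl
  set B₀ := tight A b q₀ with hB₀
  have hV₀ : M.V θ B₀ := ⟨q₀, hq₀, rfl⟩
  set w := walk f rule B₀ with hw
  have hw0 : w 0 = B₀ := rfl
  set o := f.ob B₀ with ho
  have ho1 : o.1 = B₀ := rfl
  have hωo : ω ∈ 𝒦₀.filter (fun ω => M.V ω o.1 ∧ (M.inst ω).ob o.1 = o) := by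
    refine mem_filter.2 ⟨hω, ?_, ?_⟩
    · rw [← hVe]; exact hV₀
    · rw [← hIe]; rfl
  obtain ⟨c1, c2⟩ := follow f t₀ ⟨0, hm⟩ B₀ (t₀ o) 0 rfl (ht₁ o)
  rw [← hrule, ← hw, hw0] at c1 c2
  simp only [Nat.zero_add] at c1 c2
  set T := (play f (t₀ o) B₀).length with hT
  have hres := ht₂ o ω hωo
  rw [← hIe, ho1] at hres
  -- all states are vertices
  have hVw : ∀ t ≤ T, VV A b (w t) := by
    intro t
    induction t with
    | zero => intro _; exact hV₀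
    | succ t ih =>
      intro ht
      have h2 := ih (by omega)
      have h3 := c1 t (by omega)
      have h4 := M.N_V θ (w t) _ h2 h3
      have h5 : w (t + 1) = f.N (w t) (rule (hist f w t)) := by
        rw [hw, walk_succ]
      rw [h5]
      exact h4
  set q : ℕ → Fin n → ℝ := fun t => pt A b (w t) with hq
  have hqt : ∀ t ≤ T, IsVertex A b (q t) ∧ tight A b (q t) = w t := fun t ht =>
    pt_spec (hVw t ht)
  have hobs : ∀ t ≤ T, obs A b c (q t) = f.ob (w t) := by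
    intro t ht
    obtain ⟨a1, a2⟩ := hqt t ht
    unfold obs Inst.ob
    rw [hfS, ← a2, SS_tight a1]
  have hseen : ∀ t ≤ T, seen A b c q t = hist f w t := by
    intro t
    induction t with
    | zero => intro ht; simp only [seen, hist]; rw [hobs 0 ht]
    | succ t ih =>
      intro ht
      simp only [seen, hist]
      rw [hobs (t + 1) ht, ih (by omega)]
  refine ⟨T, q, ?_, ?_, fun t ht => (hqt t ht).1, fun t ht => ?_, ?_⟩
  · have h2 : T ≤ C * H := hres.1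
    refine h2.trans (Nat.mul_le_mul_right _ ?_)
    have h3 : D ≤ 2 * m := by omega
    calc C ≤ (2 * m) * (2 * m * (2 * m) + 1) := by
          rw [hC]
          exact Nat.mul_le_mul h3 (Nat.add_le_add_right (Nat.mul_le_mul_left _ h3) _)
      _ = 8 * m ^ 3 + 2 * m := by ring
      _ ≤ 8 * m ^ 3 + 2 * m ^ 3 := by
          have : m ≤ m ^ 3 := Nat.le_self_pow (by norm_num) m
          omega
      _ = 10 * m ^ 3 := by ring
  · show pt A b (w 0) = q₀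
    rw [hw0, hB₀, pt_tight hq₀]
  · have h2 := c1 t ht
    have h5 : w (t + 1) = f.N (w t) (rule (hist f w t)) := by rw [hw, walk_succ]
    obtain ⟨a1, a2⟩ := hqt t ht.le
    obtain ⟨b1, b2⟩ := hqt (t + 1) ht
    rw [hseen t ht.le]
    have h6 : rule (hist f w t) ∈ improv A b c (q t) := by
      rw [← SS_tight a1, a2]; exact h2
    have h7 := NN_spec (exists_next h2).2
    have h8 : (tight A b (q t)).erase (rule (hist f w t)) ⊆ tight A b (q (t + 1)) := by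
      rw [a2, b2, h5]; exact h7.2.2
    refine ⟨edge_lt a1 (hA _ a1) h6 b1.1 ?_ h8, h6, h8⟩
    rw [a2, b2, h5]
    exact h7.2.1
  · obtain ⟨a1, a2⟩ := hqt T le_rfl
    intro p hp
    refine face_opt a1 (hb b hb𝓑 c hc𝓒) (hA _ a1) (E := ∅) ?_ p (by simp) fun i _ => hp i
    have h3 : lst o (play f (t₀ o) B₀) = f.ob (lst o (play f (t₀ o) B₀)).1 :=
      lst_ob f (t₀ o) B₀
    have h4 : (lst o (play f (t₀ o) B₀)).2 = f.S (w T) := by
      rw [h3, c2]; rfl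
    have h5 : (lst o (play f (t₀ o) B₀)).2 = ∅ := hres.2
    rw [h4, hfS] at h5
    rw [← SS_tight a1, a2, h5]

end Pool.Agent.U6.BL
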