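import Pool.Agent.N597.QP.Str
set_option autoImplicit false

/-!
# A strategy from central instances

`Fam`: a family of instances (pivoting systems) `ω`, which are determined by the signs `pos ω B j`.
If every finite set of instances has a central instance `p` (whose signs are also the signs of many
instances of the set), then following the shortest path of the central instance until a
contradiction, and then replacing it by another one, needs few steps.
-/

namespace Pool.Agent.U6.BL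

open Finset Pool.Agent.N597.QP Pool.Agent.N597.QP.Str

/-- a family of pivoting systems which are determined by signs -/
structure Fam (R Ω : Type) [DecidableEq R] where
  /-- the improving rows and the next states -/
  inst : Ω → Inst R
  /-- the vertices -/
  V : Ω → Finset R → Prop
  /-- the signs -/
  pos : Ω → Finset R → R → Prop
  /-- the possible vertices -/
  ok : Finset R → Prop
  V_iff : ∀ ω B, V ω B ↔ ok B ∧ ∀ j ∉ B, pos ω B j
  S_iff : ∀ ω B, V ω B → ∀ i, i ∈ (inst ω).S B ↔ i ∈ B ∧ pos ω B i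
  N_V : ∀ ω B r, V ω B → r ∈ (inst ω).S B → V ω ((inst ω).N B r)
  N_ne : ∀ ω B r, V ω B → r ∈ (inst ω).S B → (inst ω).N B r ≠ B
  N_sub : ∀ ω B r, V ω B → r ∈ (inst ω).S B → B.erase r ⊆ (inst ω).N B r
  N_uniq : ∀ ω B r B', V ω B → r ∈ (inst ω).S B → V ω B' → B' ≠ B → B.erase r ⊆ B' →
    (inst ω).N B r = B'

/-- a state without improving rows can be reached in at most `h` steps -/
def Reach {R : Type} (f : Inst R) : ℕ → Finset R → Prop
  | 0, B => f.S B = ∅
  | h + 1, B => f.S B = ∅ ∨ ∃ r ∈ f.S B, Reach f h (f.N B r)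

variable {R Ω : Type} [DecidableEq R] (M : Fam R Ω)

open Classical in
/-- `p` is central for the set `𝒦` of instances -/
def Central (D : ℕ) (𝒦 : Finset Ω) (p : Ω) : Prop :=
  (∀ B j, (D + 1) * (𝒦.filter fun ω => ¬ M.pos ω B j).card < 𝒦.card → M.pos p B j) ∧
  ∀ B, ∀ i ∈ B, (D + 1) * (𝒦.filter fun ω => M.pos ω B i).card < 𝒦.card → ¬ M.pos p B i

/-- a common sign opposite to the sign of a central instance -/
lemma count_le {D : ℕ} {𝒦 𝒦' : Finset Ω} {P : Ω → Prop} [DecidablePred P] (hsub : 𝒦' ⊆ 𝒦)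
    (h1 : ∀ ω ∈ 𝒦', P ω) (h2 : 𝒦.card ≤ (D + 1) * (𝒦.filter fun ω => ¬ P ω).card) :
    𝒦'.card * (D + 1) ≤ D * 𝒦.card := by
  have h3 : 𝒦'.card + (𝒦.filter fun ω => ¬ P ω).card ≤ 𝒦.card := by
    have h4 := card_filter_add_card_filter_not (s := 𝒦) P
    have h5 : 𝒦' ⊆ 𝒦.filter P := fun ω hω => mem_filter.2 ⟨hsub hω, h1 ω hω⟩
    have h6 := card_le_card h5
    omega
  have h4 : (D + 1) * (𝒦'.card + (𝒦.filter fun ω => ¬ P ω).card) ≤ (D + 1) * 𝒦.card :=
    Nat.mul_le_mul_left _ h3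
  rw [mul_add] at h4
  have h5 : 𝒦'.card * (D + 1) = (D + 1) * 𝒦'.card := mul_comm _ _
  have h6 : (D + 1) * 𝒦.card = D * 𝒦.card + 𝒦.card := by ring
  omega

/-- the instances which contradict the central instance are few -/
lemma mismatch {D : ℕ} {𝒦 𝒦' : Finset Ω} {p : Ω} (hp : Central M D 𝒦 p) (hsub : 𝒦' ⊆ 𝒦)
    (hne : 𝒦'.Nonempty) {o o' : Obs R} {r : R} (hr : r ∈ o.2)
    (h𝒦' : ∀ ω ∈ 𝒦', M.V ω o.1 ∧ (M.inst ω).ob o.1 = o ∧
      (M.inst ω).ob ((M.inst ω).N o.1 r) = o')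
    (hpV : M.V p o.1) (hpo : (M.inst p).ob o.1 = o)
    (hd : o' ≠ (M.inst p).ob ((M.inst p).N o.1 r)) :
    𝒦'.card * (D + 1) ≤ D * 𝒦.card := by
  classical
  obtain ⟨hp1, hp2⟩ := hp
  obtain ⟨B, S⟩ := o
  obtain ⟨B1, S1⟩ := o'
  simp only at *
  have hS : ∀ ω ∈ 𝒦', (M.inst ω).S B = S := fun ω hω => congrArg Prod.snd (h𝒦' ω hω).2.1
  have hpS : (M.inst p).S B = S := congrArg Prod.snd hpo
  have hN : ∀ ω ∈ 𝒦', (M.inst ω).N B r = B1 := fun ω hω => congrArg Prod.fst (h𝒦' ω hω).2.2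
  have hS1 : ∀ ω ∈ 𝒦', (M.inst ω).S B1 = S1 := by
    intro ω hω
    have h1 : (M.inst ω).S ((M.inst ω).N B r) = S1 := congrArg Prod.snd (h𝒦' ω hω).2.2
    rwa [hN ω hω] at h1
  have hV1 : ∀ ω ∈ 𝒦', M.V ω B1 := by
    intro ω hω
    rw [← hN ω hω]
    exact M.N_V ω B r (h𝒦' ω hω).1 (by rw [hS ω hω]; exact hr)
  obtain ⟨ω₀, hω₀⟩ := hne
  have hne1 : B1 ≠ B := by
    rw [← hN ω₀ hω₀]
    exact M.N_ne ω₀ B r (h𝒦' ω₀ hω₀).1 (by rw [hS ω₀ hω₀]; exact hr)
  have hsub1 : B.erase r ⊆ B1 := by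
    rw [← hN ω₀ hω₀]
    exact M.N_sub ω₀ B r (h𝒦' ω₀ hω₀).1 (by rw [hS ω₀ hω₀]; exact hr)
  by_cases hV : M.V p B1
  · -- the next state is right, the improving rows are not
    have h1 : (M.inst p).N B r = B1 :=
      M.N_uniq p B r B1 hpV (by rw [hpS]; exact hr) hV hne1 hsub1
    have h2 : (M.inst p).S B1 ≠ S1 := by
      intro h2
      apply hd
      unfold Inst.ob
      rw [h1, h2]
    obtain ⟨i, hi⟩ : ∃ i, ¬ (i ∈ (M.inst p).S B1 ↔ i ∈ S1) := by
      by_contra hcon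
      push Not at hcon
      exact h2 (Finset.ext hcon)
    by_cases hi1 : i ∈ S1
    · have hi2 : i ∉ (M.inst p).S B1 := fun h => hi ⟨fun _ => hi1, fun _ => h⟩
      have hiB : i ∈ B1 := by
        have := (M.S_iff ω₀ B1 (hV1 ω₀ hω₀) i).1 (by rw [hS1 ω₀ hω₀]; exact hi1)
        exact this.1
      have hnp : ¬ M.pos p B1 i := fun h => hi2 ((M.S_iff p B1 hV i).2 ⟨hiB, h⟩)
      refine count_le (P := fun ω => M.pos ω B1 i) hsub (fun ω hω => ?_) ?_
      · exact ((M.S_iff ω B1 (hV1 ω hω) i).1 (by rw [hS1 ω hω]; exact hi1)).2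
      · by_contra hcon
        exact hnp (hp1 B1 i (not_le.1 hcon))
    · have hi2 : i ∈ (M.inst p).S B1 := by
        by_contra h
        exact hi ⟨fun h' => absurd h' h, fun h' => absurd h' hi1⟩
      obtain ⟨hiB, hpp⟩ := (M.S_iff p B1 hV i).1 hi2
      refine count_le (P := fun ω => ¬ M.pos ω B1 i) hsub (fun ω hω h => ?_) ?_
      · apply hi1
        rw [← hS1 ω hω]
        exact (M.S_iff ω B1 (hV1 ω hω) i).2 ⟨hiB, h⟩
      · by_contra hcon
        refine hp2 B1 i hiB ?_ hpp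
        have h3 := not_le.1 hcon
        simp only [not_not] at h3
        exact h3
  · -- the next state is wrong
    have hok : M.ok B1 := ((M.V_iff ω₀ B1).1 (hV1 ω₀ hω₀)).1
    obtain ⟨j, hj, hjp⟩ : ∃ j, j ∉ B1 ∧ ¬ M.pos p B1 j := by
      by_contra hcon
      push Not at hcon
      exact hV ((M.V_iff p B1).2 ⟨hok, hcon⟩)
    refine count_le (P := fun ω => M.pos ω B1 j) hsub (fun ω hω => ?_) ?_
    · exact ((M.V_iff ω B1).1 (hV1 ω hω)).2 j hj
    · by_contra hcon
      exact hjp (hp1 B1 j (not_le.1 hcon))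

/-- a central instance agrees with all instances -/
lemma central_agree {D : ℕ} {𝒦 : Finset Ω} {p : Ω} (hp : Central M D 𝒦 p) (hne : 𝒦.Nonempty)
    {o : Obs R} (h𝒦 : ∀ ω ∈ 𝒦, M.V ω o.1 ∧ (M.inst ω).ob o.1 = o) :
    M.V p o.1 ∧ (M.inst p).ob o.1 = o := by
  classical
  obtain ⟨hp1, hp2⟩ := hp
  obtain ⟨B, S⟩ := o
  simp only at *
  have hS : ∀ ω ∈ 𝒦, (M.inst ω).S B = S := fun ω hω => congrArg Prod.snd (h𝒦 ω hω).2
  obtain ⟨ω₀, hω₀⟩ := hne
  have hcard : 0 < 𝒦.card := card_pos.2 ⟨ω₀, hω₀⟩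
  have hV : M.V p B := by
    refine (M.V_iff p B).2 ⟨((M.V_iff ω₀ B).1 (h𝒦 ω₀ hω₀).1).1, fun j hj => hp1 B j ?_⟩
    rw [filter_eq_empty_iff.2, card_empty, mul_zero]
    · exact hcard
    · intro ω hω h
      exact h (((M.V_iff ω B).1 (h𝒦 ω hω).1).2 j hj)
  refine ⟨hV, ?_⟩
  unfold Inst.ob
  congr 1
  ext i
  rw [M.S_iff p B hV i]
  constructor
  · rintro ⟨hiB, hip⟩
    by_contra hi
    refine hp2 B i hiB ?_ hip
    rw [filter_eq_empty_iff.2, card_empty, mul_zero]
    · exact hcard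
    · intro ω hω h
      apply hi
      rw [← hS ω hω]
      exact (M.S_iff ω B (h𝒦 ω hω).1 i).2 ⟨hiB, h⟩
  · intro hi
    have h1 : ∀ ω ∈ 𝒦, i ∈ B ∧ M.pos ω B i := fun ω hω =>
      (M.S_iff ω B (h𝒦 ω hω).1 i).1 (by rw [hS ω hω]; exact hi)
    refine ⟨(h1 ω₀ hω₀).1, hp1 B i ?_⟩
    rw [filter_eq_empty_iff.2, card_empty, mul_zero]
    · exact hcard
    · intro ω hω h
      exact h (h1 ω hω).2

/-- **The strategy.** -/
theorem exists_strategy {D H : ℕ}
    (hcen : ∀ 𝒦 : Finset Ω, 𝒦.Nonempty → ∃ p, Central M D 𝒦 p)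
    (hR : ∀ ω B, M.V ω B → Reach (M.inst ω) H B) (c : ℕ) :
    ∀ (𝒦 : Finset Ω) (o : Obs R), (∀ ω ∈ 𝒦, M.V ω o.1 ∧ (M.inst ω).ob o.1 = o) →
      𝒦.card * D ^ c < (D + 1) ^ c →
      ∃ t : Str R, Safe ∅ t o.2 ∧ ∀ ω ∈ 𝒦, (play (M.inst ω) t o.1).length ≤ c * H ∧
        (lst o (play (M.inst ω) t o.1)).2 = ∅ := by
  classical
  induction c with
  | zero =>
    intro 𝒦 o _ hc
    have h0 : 𝒦 = ∅ := by
      rw [← card_eq_zero]
      simpa using hc
    subst h0
    exact ⟨stop, trivial, by simp⟩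
  | succ c ih =>
    intro 𝒦 o h𝒦 hc
    rcases 𝒦.eq_empty_or_nonempty with h0 | hne
    · subst h0
      exact ⟨stop, trivial, by simp⟩
    obtain ⟨p, hp⟩ := hcen 𝒦 hne
    obtain ⟨hpV, hpo⟩ := central_agree M hp hne h𝒦
    have key : ∀ (h : ℕ) (𝒦' : Finset Ω) (o' : Obs R), 𝒦' ⊆ 𝒦 →
        (∀ ω ∈ 𝒦', M.V ω o'.1 ∧ (M.inst ω).ob o'.1 = o') → M.V p o'.1 →
        (M.inst p).ob o'.1 = o' → Reach (M.inst p) h o'.1 →
        ∃ t : Str R, Safe ∅ t o'.2 ∧ ∀ ω ∈ 𝒦',
          (play (M.inst ω) t o'.1).length ≤ h + c * H ∧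
          (lst o' (play (M.inst ω) t o'.1)).2 = ∅ := by
      intro h
      induction h with
      | zero =>
        intro 𝒦' o' _ _ _ hpo' hreach
        refine ⟨stop, trivial, fun ω _ => ⟨by simp [play], ?_⟩⟩
        have h1 : (M.inst p).S o'.1 = o'.2 := congrArg Prod.snd hpo'
        simp only [play, lst]
        rw [← h1]
        exact hreach
      | succ h ih2 =>
        intro 𝒦' o' hsub h𝒦' hpV' hpo' hreach
        have h1 : (M.inst p).S o'.1 = o'.2 := congrArg Prod.snd hpo'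
        rcases hreach with hreach | ⟨r, hr, hreach⟩
        · refine ⟨stop, trivial, fun ω _ => ⟨by simp [play], ?_⟩⟩
          simp only [play, lst]
          rw [← h1]
          exact hreach
        · have hr' : r ∈ o'.2 := by rw [← h1]; exact hr
          have hstep : ∀ o'' : Obs R, ∃ t : Str R, Safe ∅ t o''.2 ∧ ∀ ω ∈ 𝒦',
              (M.inst ω).ob ((M.inst ω).N o'.1 r) = o'' →
              (play (M.inst ω) t o''.1).length ≤ h + c * H ∧
              (lst o'' (play (M.inst ω) t o''.1)).2 = ∅ := by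
            intro o''
            set 𝒦'' := 𝒦'.filter fun ω => (M.inst ω).ob ((M.inst ω).N o'.1 r) = o'' with h𝒦''
            have hK2 : ∀ ω ∈ 𝒦'', M.V ω o''.1 ∧ (M.inst ω).ob o''.1 = o'' := by
              intro ω hω
              obtain ⟨a1, a2⟩ := mem_filter.1 hω
              obtain ⟨a3, a4⟩ := h𝒦' ω a1
              have a5 : (M.inst ω).N o'.1 r = o''.1 := congrArg Prod.fst a2
              have a6 : (M.inst ω).S o'.1 = o'.2 := congrArg Prod.snd a4
              rw [← a5]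
              refine ⟨M.N_V ω _ r a3 (by rw [a6]; exact hr'), ?_⟩
              exact a2
            by_cases hm : o'' = (M.inst p).ob ((M.inst p).N o'.1 r)
            · have hm1 : o''.1 = (M.inst p).N o'.1 r := congrArg Prod.fst hm
              obtain ⟨t, ht1, ht2⟩ := ih2 𝒦'' o'' ((filter_subset _ _).trans hsub) hK2
                (by rw [hm1]; exact M.N_V p _ r hpV' hr)
                (by rw [hm1]; exact hm.symm) (by rw [hm1]; exact hreach)
              exact ⟨t, ht1, fun ω hω hoo => ht2 ω (mem_filter.2 ⟨hω, hoo⟩)⟩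
            · rcases 𝒦''.eq_empty_or_nonempty with h0 | hne2
              · refine ⟨stop, trivial, fun ω hω hoo => ?_⟩
                have : ω ∈ 𝒦'' := mem_filter.2 ⟨hω, hoo⟩
                rw [h0] at this
                simp at this
              · have h3 := mismatch M hp ((filter_subset _ _).trans hsub) hne2 hr'
                  (fun ω hω => ⟨(h𝒦' ω (mem_filter.1 hω).1).1, (h𝒦' ω (mem_filter.1 hω).1).2,
                    (mem_filter.1 hω).2⟩) hpV' hpo' hm
                have h4 : 𝒦''.card * D ^ c < (D + 1) ^ c := by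
                  have h5 : (𝒦''.card * D ^ c) * (D + 1) < (D + 1) ^ c * (D + 1) := by
                    calc (𝒦''.card * D ^ c) * (D + 1) = (𝒦''.card * (D + 1)) * D ^ c := by ring
                      _ ≤ (D * 𝒦.card) * D ^ c := Nat.mul_le_mul_right _ h3
                      _ = 𝒦.card * D ^ (c + 1) := by ring
                      _ < (D + 1) ^ (c + 1) := hc
                      _ = (D + 1) ^ c * (D + 1) := by ring
                  exact lt_of_mul_lt_mul_right h5 (Nat.zero_le _)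
                obtain ⟨t, ht1, ht2⟩ := ih 𝒦'' o'' hK2 h4
                refine ⟨t, ht1, fun ω hω hoo => ?_⟩
                obtain ⟨b1, b2⟩ := ht2 ω (mem_filter.2 ⟨hω, hoo⟩)
                exact ⟨by omega, b2⟩
          choose k hk1 hk2 using hstep
          refine ⟨go r k, ⟨hr', by simp, hk1⟩, fun ω hω => ?_⟩
          obtain ⟨b1, b2⟩ := hk2 _ ω hω rfl
          simp only [play, List.length_cons, lst]
          refine ⟨?_, b2⟩
          have : (play (M.inst ω) (k ((M.inst ω).ob ((M.inst ω).N o'.1 r)))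
            ((M.inst ω).N o'.1 r)).length ≤ h + c * H := b1
          omega
    obtain ⟨t, ht1, ht2⟩ := key H 𝒦 o (Subset.refl _) h𝒦 hpV hpo (hR p o.1 hpV)
    refine ⟨t, ht1, fun ω hω => ?_⟩
    obtain ⟨b1, b2⟩ := ht2 ω hω
    refine ⟨b1.trans (le_of_eq ?_), b2⟩
    ring

end Pool.Agent.U6.BL
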