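import Pool.Agent.N597.QP.Final
import Pool.Agent.U6.BL.Center
import Pool.Agent.U6.BL.Strat
set_option autoImplicit false

/-!
# Linear programs with a known matrix

For a fixed matrix the combinatorial type of the linear program `max c q`, `A q ≤ b` is determined by
the signs of linear functionals of `b` and of `c`.
-/

namespace Pool.Agent.U6.BL

open Finset Matrix Pool.Agent.N597.QP Pool.Agent.N597.QP.Str

variable {m n : ℕ}

/-- the slack of the row `k.2` at the point where the rows `k.1` are tight, as a function of the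
right hand side -/
noncomputable def fB (A : Fin m → Fin n → ℝ) (k : Finset (Fin m) × Fin m) :
    (Fin m → ℝ) →ₗ[ℝ] ℝ :=
  if h : k.1.card = n then
    { toFun := fun b => b k.2 - A k.2 ⬝ᵥ ((rowMat A (num k.1 h))⁻¹ *ᵥ fun i => b (num k.1 h i))
      map_add' := fun b b' => by
        have e : (fun i => (b + b') (num k.1 h i)) =
          (fun i => b (num k.1 h i)) + fun i => b' (num k.1 h i) := rfl
        rw [e, mulVec_add, dotProduct_add, Pi.add_apply]
        ring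
      map_smul' := fun t b => by
        have e : (fun i => (t • b) (num k.1 h i)) = t • fun i => b (num k.1 h i) := rfl
        rw [e, mulVec_smul, dotProduct_smul, Pi.smul_apply]
        simp only [smul_eq_mul, RingHom.id_apply]
        ring }
  else 0

/-- minus the multiplier of the row `k.2` at the point where the rows `k.1` are tight, as a function
of the objective -/
noncomputable def gC (A : Fin m → Fin n → ℝ) (k : Finset (Fin m) × Fin m) :
    (Fin n → ℝ) →ₗ[ℝ] ℝ :=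
  if h : k.1.card = n then
    { toFun := fun c => - ∑ i, if num k.1 h i = k.2 then
        (c ᵥ* (rowMat A (num k.1 h))⁻¹) i else 0
      map_add' := fun c c' => by
        rw [add_vecMul, ← neg_add, ← sum_add_distrib]
        congr 1
        refine sum_congr rfl fun i _ => ?_
        split_ifs
        · rfl
        · simp
      map_smul' := fun t c => by
        rw [smul_vecMul]
        simp only [RingHom.id_apply, smul_eq_mul, mul_neg, mul_sum]
        congr 1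
        refine sum_congr rfl fun i _ => ?_
        split_ifs
        · rfl
        · simp }
  else 0

lemma fB_apply (A : Fin m → Fin n → ℝ) {B : Finset (Fin m)} (h : B.card = n) (j : Fin m)
    (b : Fin m → ℝ) :
    fB A (B, j) b = b j - A j ⬝ᵥ ((rowMat A (num B h))⁻¹ *ᵥ fun i => b (num B h i)) := by
  unfold fB
  rw [dif_pos h]
  rfl

lemma gC_apply (A : Fin m → Fin n → ℝ) {B : Finset (Fin m)} (h : B.card = n) (j : Fin m)
    (c : Fin n → ℝ) :
    gC A (B, j) c = - ∑ i, if num B h i = j then (c ᵥ* (rowMat A (num B h))⁻¹) i else 0 := by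
  unfold gC
  rw [dif_pos h]
  rfl

variable {A : Fin m → Fin n → ℝ} {b : Fin m → ℝ} {c : Fin n → ℝ} {q : Fin n → ℝ}

lemma fB_vertex (hq : IsVertex A b q) (h : (tight A b q).card = n) (j : Fin m) :
    fB A (tight A b q, j) b = b j - A j ⬝ᵥ q := by
  rw [fB_apply A h]
  have hu : IsUnit (rowMat A (num (tight A b q) h)).det := isUnit_iff_ne_zero.2 (hq.det_ne h)
  have h1 : rowMat A (num (tight A b q) h) *ᵥ q = fun i => b (num (tight A b q) h i) :=
    funext fun k => mem_tight.1 (num_mem _ h k)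
  rw [← h1, mulVec_mulVec, nonsing_inv_mul _ hu, one_mulVec]

lemma gC_vertex (hq : IsVertex A b q) {h : (tight A b q).card = n} {y : Fin n → ℝ}
    (hy : c = ∑ k, y k • rowMat A (num (tight A b q) h) k) (k : Fin n) :
    gC A (tight A b q, num (tight A b q) h k) c = - y k := by
  rw [gC_apply A h]
  have hu : IsUnit (rowMat A (num (tight A b q) h)).det := isUnit_iff_ne_zero.2 (hq.det_ne h)
  have h1 : c = y ᵥ* rowMat A (num (tight A b q) h) := by rw [hy, vecMul_eq_sum]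
  rw [h1, vecMul_vecMul, mul_nonsing_inv _ hu, vecMul_one, sum_eq_single k]
  · rw [if_pos rfl]
  · intro i _ hi
    rw [if_neg fun hh => hi (num_inj _ h hh)]
  · intro hk
    exact absurd (mem_univ k) hk

/-- the rows `B` are a basis -/
def ok (A : Fin m → Fin n → ℝ) (B : Finset (Fin m)) : Prop :=
  ∃ h : B.card = n, (rowMat A (num B h)).det ≠ 0

lemma VV_of_pos {B : Finset (Fin m)} (hok : ok A B) (hpos : ∀ j, j ∉ B → 0 < fB A (B, j) b) :
    VV A b B := by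
  obtain ⟨h, hd⟩ := hok
  have hu : IsUnit (rowMat A (num B h)).det := isUnit_iff_ne_zero.2 hd
  set q := (rowMat A (num B h))⁻¹ *ᵥ fun k => b (num B h k) with hq
  have hMq : rowMat A (num B h) *ᵥ q = fun k => b (num B h k) := by
    rw [hq, mulVec_mulVec, mul_nonsing_inv _ hu, one_mulVec]
  have hk : ∀ k, A (num B h k) ⬝ᵥ q = b (num B h k) := fun k => congrFun hMq k
  have hin : ∀ i ∈ B, A i ⬝ᵥ q = b i := by
    intro i hi
    obtain ⟨k, rfl⟩ := (range_num B h i).1 hi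
    exact hk k
  have hout : ∀ r, r ∉ B → A r ⬝ᵥ q < b r := by
    intro r hr
    have h3 := hpos r hr
    rw [fB_apply A h, ← hq] at h3
    linarith
  have ht : tight A b q = B := by
    ext i
    rw [mem_tight]
    constructor
    · intro h3
      by_contra hi
      exact (hout i hi).ne h3
    · exact hin i
  refine ⟨q, ⟨fun i => ?_, fun q' hq' => ?_⟩, ht⟩
  · by_cases hi : i ∈ B
    · exact (hin i hi).le
    · exact (hout i hi).le
  · rw [ht] at hq'
    have h3 : rowMat A (num B h) *ᵥ q' = fun k => b (num B h k) :=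
      funext fun k => hq' _ (num_mem B h k)
    have h4 : (rowMat A (num B h))⁻¹ *ᵥ (rowMat A (num B h) *ᵥ q') = q := by rw [h3]
    rw [mulVec_mulVec, nonsing_inv_mul _ hu, one_mulVec] at h4
    exact h4

lemma VV_iff' (hA : Nondeg A b) (B : Finset (Fin m)) :
    VV A b B ↔ ok A B ∧ ∀ j, j ∉ B → 0 < fB A (B, j) b := by
  constructor
  · rintro ⟨q, hq, rfl⟩
    have h := hA q hq
    refine ⟨⟨h, hq.det_ne h⟩, fun j hj => ?_⟩
    rw [fB_vertex hq h]
    have h1 := hq.1 j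
    have h2 : A j ⬝ᵥ q ≠ b j := fun hh => hj (mem_tight.2 hh)
    have := lt_of_le_of_ne h1 h2
    linarith
  · rintro ⟨h1, h2⟩
    exact VV_of_pos h1 h2

lemma SS_iff' (hA : Nondeg A b) (hb : ∃ μ, ∀ p, Feas A b p → c ⬝ᵥ p ≤ μ) {B : Finset (Fin m)}
    (hB : VV A b B) (i : Fin m) : i ∈ SS A b c B ↔ i ∈ B ∧ 0 < gC A (B, i) c := by
  obtain ⟨q, hq, rfl⟩ := hB
  have h := hA q hq
  obtain ⟨y, hy⟩ := hq.exists_mult h c
  rw [SS_tight hq]
  constructor
  · intro hi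
    obtain ⟨k, rfl⟩ := (range_num _ h i).1 (mem_improv.1 hi).1
    refine ⟨num_mem _ h k, ?_⟩
    rw [gC_vertex hq hy]
    have := improv_neg hq hy hi
    linarith
  · rintro ⟨hi, hpos⟩
    obtain ⟨k, rfl⟩ := (range_num _ h i).1 hi
    rw [gC_vertex hq hy] at hpos
    exact neg_improv hq hb hy (by linarith)

/-- an edge has at most one other end -/
lemma edge_end_unique (hq : IsVertex A b q) {r : Fin m} {q₁ q₂ : Fin n → ℝ}
    (h₁ : IsVertex A b q₁) (h₂ : IsVertex A b q₂) (hn₁ : q₁ ≠ q) (hn₂ : q₂ ≠ q)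
    (hs₁ : (tight A b q).erase r ⊆ tight A b q₁) (hs₂ : (tight A b q).erase r ⊆ tight A b q₂) :
    q₁ = q₂ := by
  have hpos : ∀ q' : Fin n → ℝ, IsVertex A b q' → q' ≠ q → (tight A b q).erase r ⊆ tight A b q' →
      0 < b r - A r ⬝ᵥ q' := by
    intro q' hq' hne hsub
    have h1 := hq'.1 r
    have h2 : A r ⬝ᵥ q' ≠ b r := by
      intro h3
      apply hne
      apply hq.2
      intro i hi
      by_cases hir : i = r
      · rw [hir]; exact h3
      · exact mem_tight.1 (hsub (mem_erase.2 ⟨hir, hi⟩))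
    have := lt_of_le_of_ne h1 h2
    linarith
  by_cases hr : r ∈ tight A b q
  swap
  · exfalso
    apply hn₁
    apply hq.2
    intro i hi
    exact mem_tight.1 (hs₁ (mem_erase.2 ⟨fun h => hr (h ▸ hi), hi⟩))
  have key : ∀ p₁ p₂ : Fin n → ℝ, IsVertex A b p₁ → IsVertex A b p₂ →
      (tight A b q).erase r ⊆ tight A b p₁ → (tight A b q).erase r ⊆ tight A b p₂ →
      0 < b r - A r ⬝ᵥ p₁ → b r - A r ⬝ᵥ p₁ ≤ b r - A r ⬝ᵥ p₂ → p₂ = p₁ := by
    intro p₁ p₂ g₁ g₂ t₁ t₂ hs1 hs12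
    set s₁ := b r - A r ⬝ᵥ p₁ with e₁
    set s₂ := b r - A r ⬝ᵥ p₂ with e₂
    have hs2 : 0 < s₂ := lt_of_lt_of_le hs1 hs12
    have h0 : q + (s₂ • (p₁ - q) - s₁ • (p₂ - q)) = q := by
      apply hq.2
      intro i hi
      rw [dotProduct_add, dotProduct_sub, dotProduct_smul, dotProduct_smul, dotProduct_sub,
        dotProduct_sub, mem_tight.1 hi]
      simp only [smul_eq_mul]
      by_cases hir : i = r
      · rw [hir] at hi ⊢
        have : A r ⬝ᵥ p₁ = b r - s₁ := by rw [e₁]; ring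
        have h3 : A r ⬝ᵥ p₂ = b r - s₂ := by rw [e₂]; ring
        rw [this, h3]
        ring
      · rw [mem_tight.1 (t₁ (mem_erase.2 ⟨hir, hi⟩)), mem_tight.1 (t₂ (mem_erase.2 ⟨hir, hi⟩))]
        ring
    have h1 : s₂ • (p₁ - q) = s₁ • (p₂ - q) := by
      have : s₂ • (p₁ - q) - s₁ • (p₂ - q) = 0 := by simpa using h0
      exact sub_eq_zero.1 this
    apply g₁.2
    intro i hi
    have h2 : s₂ * (A i ⬝ᵥ p₁ - A i ⬝ᵥ q) = s₁ * (A i ⬝ᵥ p₂ - A i ⬝ᵥ q) := by
      have := congrArg (fun v => A i ⬝ᵥ v) h1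
      simpa [dotProduct_smul, dotProduct_sub] using this
    rw [mem_tight.1 hi] at h2
    have h3 := hq.1 i
    have h4 := g₂.1 i
    nlinarith
  rcases le_total (b r - A r ⬝ᵥ q₁) (b r - A r ⬝ᵥ q₂) with h | h
  · exact (key q₁ q₂ h₁ h₂ hs₁ hs₂ (hpos q₁ h₁ hn₁ hs₁) h).symm
  · exact key q₂ q₁ h₂ h₁ hs₂ hs₁ (hpos q₂ h₂ hn₂ hs₂) h

lemma VV_edge_unique {B B₁ B₂ : Finset (Fin m)} {r : Fin m} (hB : VV A b B) (h₁ : VV A b B₁)
    (h₂ : VV A b B₂) (hn₁ : B₁ ≠ B) (hn₂ : B₂ ≠ B) (hs₁ : B.erase r ⊆ B₁)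
    (hs₂ : B.erase r ⊆ B₂) : B₁ = B₂ := by
  obtain ⟨q, hq, rfl⟩ := hB
  obtain ⟨q₁, hq₁, rfl⟩ := h₁
  obtain ⟨q₂, hq₂, rfl⟩ := h₂
  rw [edge_end_unique hq hq₁ hq₂ (fun h => hn₁ (by rw [h])) (fun h => hn₂ (by rw [h])) hs₁ hs₂]

lemma NN_uniq {B B' : Finset (Fin m)} {r : Fin m} (hr : r ∈ SS A b c B) (hB' : VV A b B')
    (hne : B' ≠ B) (hsub : B.erase r ⊆ B') : NN (VV A b) B r = B' := by
  obtain ⟨h1, h2⟩ := exists_next hr
  obtain ⟨h3, h4, h5⟩ := NN_spec h2
  exact VV_edge_unique h1 h3 hB' h4 hne h5 hsub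

/-- the parameters: a nondegenerate right hand side and an objective -/
abbrev Par (A : Fin m → Fin n → ℝ) (𝓑 : Set (Fin m → ℝ)) (𝓒 : Set (Fin n → ℝ)) : Type :=
  {θ : (Fin m → ℝ) × (Fin n → ℝ) // θ.1 ∈ 𝓑 ∧ Nondeg A θ.1 ∧ θ.2 ∈ 𝓒}

/-- the family of the linear programs with the matrix `A` -/
noncomputable def fam (A : Fin m → Fin n → ℝ) (𝓑 : Set (Fin m → ℝ)) (𝓒 : Set (Fin n → ℝ))
    (hb : ∀ b ∈ 𝓑, ∀ c ∈ 𝓒, ∃ μ, ∀ p, Feas A b p → c ⬝ᵥ p ≤ μ) : Fam (Fin m) (Par A 𝓑 𝓒) where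
  inst θ := ⟨SS A θ.1.1 θ.1.2, NN (VV A θ.1.1)⟩
  V θ := VV A θ.1.1
  pos θ B j := if j ∈ B then 0 < gC A (B, j) θ.1.2 else 0 < fB A (B, j) θ.1.1
  ok := ok A
  V_iff := by
    intro θ B
    rw [VV_iff' θ.2.2.1]
    refine and_congr_right fun _ => forall_congr' fun j => ?_
    constructor
    · intro h hj
      rw [if_neg hj]
      exact h hj
    · intro h hj
      have := h hj
      rwa [if_neg hj] at this
  S_iff := by
    intro θ B hB i
    rw [SS_iff' θ.2.2.1 (hb _ θ.2.1 _ θ.2.2.2) hB]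
    refine and_congr_right fun hi => ?_
    rw [if_pos hi]
  N_V := fun θ B r _ hr => (NN_spec (exists_next hr).2).1
  N_ne := fun θ B r _ hr => (NN_spec (exists_next hr).2).2.1
  N_sub := fun θ B r _ hr => (NN_spec (exists_next hr).2).2.2
  N_uniq := fun θ B r B' _ hr hB' hne hsub => NN_uniq hr hB' hne hsub

/-- central linear programs exist -/
theorem fam_central (A : Fin m → Fin n → ℝ) {𝓑 : Set (Fin m → ℝ)} {𝓒 : Set (Fin n → ℝ)}
    (h𝓑 : Convex ℝ 𝓑) (h𝓒 : Convex ℝ 𝓒) (hd : 𝓑 ⊆ closure {b | b ∈ 𝓑 ∧ Nondeg A b})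
    (hb : ∀ b ∈ 𝓑, ∀ c ∈ 𝓒, ∃ μ, ∀ p, Feas A b p → c ⬝ᵥ p ≤ μ)
    (𝒦 : Finset (Par A 𝓑 𝓒)) (hne : 𝒦.Nonempty) :
    ∃ p, Central (fam A 𝓑 𝓒 hb) (m + n) 𝒦 p := by
  classical
  obtain ⟨b₀, hb₀, c, hc, h1, h2, h3⟩ := exists_center (fB A) (gC A) h𝓑 h𝓒 𝒦
    (fun θ => θ.1.1) (fun θ => θ.1.2) hne (fun θ _ => θ.2.1) (fun θ _ => θ.2.2.2) (D := m + n)
    (by rw [Module.finrank_prod]; simp)
  have hopen : IsOpen {b : Fin m → ℝ | ∀ k, (m + n + 1) *
      (𝒦.filter fun θ => ¬ 0 < fB A k θ.1.1).card < 𝒦.card → 0 < fB A k b} := by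
    have e : {b : Fin m → ℝ | ∀ k, (m + n + 1) *
      (𝒦.filter fun θ => ¬ 0 < fB A k θ.1.1).card < 𝒦.card → 0 < fB A k b} =
      ⋂ k, {b : Fin m → ℝ | (m + n + 1) *
      (𝒦.filter fun θ => ¬ 0 < fB A k θ.1.1).card < 𝒦.card → 0 < fB A k b} := by
      ext b
      simp
    rw [e]
    refine isOpen_iInter_of_finite fun k => ?_
    by_cases hk : (m + n + 1) * (𝒦.filter fun θ => ¬ 0 < fB A k θ.1.1).card < 𝒦.card
    · simp only [hk, forall_const]
      exact isOpen_lt continuous_const (LinearMap.continuous_of_finiteDimensional (fB A k))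
    · simp only [hk, false_imp_iff]
      exact isOpen_univ
  obtain ⟨b, hbU, hb𝓑, hbN⟩ := mem_closure_iff.1 (hd hb₀) _ hopen h1
  have hp1 : ∀ (θ : Par A 𝓑 𝓒) (B : Finset (Fin m)) (j : Fin m), j ∈ B →
      ((fam A 𝓑 𝓒 hb).pos θ B j ↔ 0 < gC A (B, j) θ.1.2) := by
    intro θ B j hj
    change (if j ∈ B then 0 < gC A (B, j) θ.1.2 else 0 < fB A (B, j) θ.1.1) ↔ _
    rw [if_pos hj]
  have hp2 : ∀ (θ : Par A 𝓑 𝓒) (B : Finset (Fin m)) (j : Fin m), j ∉ B →
      ((fam A 𝓑 𝓒 hb).pos θ B j ↔ 0 < fB A (B, j) θ.1.1) := by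
    intro θ B j hj
    change (if j ∈ B then 0 < gC A (B, j) θ.1.2 else 0 < fB A (B, j) θ.1.1) ↔ _
    rw [if_neg hj]
  refine ⟨⟨(b, c), hb𝓑, hbN, hc⟩, fun B j hj => ?_, fun B i hi hlt => ?_⟩
  · by_cases hjB : j ∈ B
    · rw [hp1 _ B j hjB]
      refine h2 (B, j) (lt_of_le_of_lt (Nat.mul_le_mul_left _ (card_le_card fun θ hθ => ?_)) hj)
      rw [mem_filter] at hθ ⊢
      rw [hp1 _ B j hjB]
      exact hθ
    · rw [hp2 _ B j hjB]
      refine hbU (B, j) (lt_of_le_of_lt (Nat.mul_le_mul_left _ (card_le_card fun θ hθ => ?_)) hj)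
      rw [mem_filter] at hθ ⊢
      rw [hp2 _ B j hjB]
      exact hθ
  · rw [hp1 _ B i hi]
    refine h3 (B, i) (lt_of_le_of_lt (Nat.mul_le_mul_left _ (card_le_card fun θ hθ => ?_)) hlt)
    rw [mem_filter] at hθ ⊢
    rw [hp1 _ B i hi]
    exact hθ

end Pool.Agent.U6.BL
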